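import Pool.Agent.H815.HG.Step
import Pool.Graph.R_seed8.R703.MO.Defs

/-!
# Comparison with the cellular chain complex, and the local parts
-/

set_option autoImplicit false
set_option linter.unusedSectionVars false
set_option linter.unusedVariables false

namespace Pool.Agent.H815.HG

open Finset Pool.Agent.W907.SG Pool.Agent.H815.TW Module Pool.Agent.R703.MO

/-- the Betti number from the ranks -/
theorem beta_add {V M F : Type} [Fintype V] [LinearOrder V] [Field F] [AddCommGroup M] [Module F M]
    [FiniteDimensional F M] (G : SimpleGraph V) (ρ : V → M →ₗ[F] M) (A S : Set V) (i : ℕ) :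
    beta G ρ A S i + finrank F ((KK G ρ A S i).map (bd F)) + finrank F ((KK G ρ A S (i + 1)).map (bd F)) =
      finrank F (KK G ρ A S i) := by
  have h1 := LinearMap.finrank_range_add_finrank_ker ((bd F (V := V) (M := M)).domRestrict (KK G ρ A S i))
  rw [LinearMap.range_domRestrict] at h1
  have h2 : finrank F (LinearMap.ker ((bd F (V := V) (M := M)).domRestrict (KK G ρ A S i))) =
      finrank F (ZZ G ρ A S i) := by
    have h0 : (LinearMap.ker ((bd F (V := V) (M := M)).domRestrict (KK G ρ A S i))).map (KK G ρ A S i).subtype =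
        ZZ G ρ A S i := by
      ext x
      constructor
      · rintro ⟨⟨y, hy⟩, h1, rfl⟩
        exact ⟨hy, LinearMap.mem_ker.2 (LinearMap.mem_ker.1 h1)⟩
      · rintro ⟨h1, h2⟩
        exact ⟨⟨x, h1⟩, LinearMap.mem_ker.2 (LinearMap.mem_ker.1 h2), rfl⟩
    rw [← Submodule.finrank_map_subtype_eq (KK G ρ A S i), h0]
  have h3 := Submodule.finrank_mono (BB_le_ZZ G ρ A S i)
  have h4 : finrank F (BB G ρ A S i) = finrank F ((KK G ρ A S (i + 1)).map (bd F)) := rfl
  unfold beta
  omega

section

variable {V : Type} [Fintype V] [LinearOrder V] {X : Type} {G : SimpleGraph V} {t q : V → V}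

/-- the restriction to the lowest vertices of the cubes -/
noncomputable def res (D : Act G t X) (F : Type) [Field F] : (Finset V → X → F) →ₗ[F] (Finset V → X → F) where
  toFun c T x := if ∀ v ∈ T, D.up v x = true then c T x else 0
  map_add' c d := by
    funext T x
    simp only [Pi.add_apply]
    split_ifs
    · rfl
    · rw [add_zero]
  map_smul' r c := by
    funext T x
    simp only [Pi.smul_apply, smul_eq_mul, RingHom.id_apply]
    split_ifs
    · rfl
    · rw [mul_zero]

theorem res_pos (D : Act G t X) (F : Type) [Field F] (c : Finset V → X → F) {T : Finset V} {x : X}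
    (h : ∀ v ∈ T, D.up v x = true) : res D F c T x = c T x := if_pos h

theorem res_neg (D : Act G t X) (F : Type) [Field F] (c : Finset V → X → F) {T : Finset V} {x : X}
    (h : ¬ ∀ v ∈ T, D.up v x = true) : res D F c T x = 0 := if_neg h

variable {D : Act G t X} {F : Type} [Field F]

theorem KK_cl {i : ℕ} {c : Finset V → X → F} (hc : c ∈ KK G (pull F D.a) Set.univ ∅ i) {T : Finset V} {x : X}
    (hne : c T x ≠ 0) : G.IsClique (T : Set V) ∧ T.card = i := by
  by_contra h
  have h1 := hc.1 T (fun h2 => h ⟨h2.1, h2.2.2⟩)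
  exact hne (congrFun h1 x)

theorem KK_anti {i : ℕ} {c : Finset V → X → F} (hc : c ∈ KK G (pull F D.a) Set.univ ∅ i) {T : Finset V} {v : V}
    (hv : v ∈ T) (x : X) : c T (D.a v x) = - c T x := congrFun (hc.2 T v (Or.inl hv)) x

theorem res_mem {i : ℕ} {c : Finset V → X → F} (hc : c ∈ KK G (pull F D.a) Set.univ ∅ i) : res D F c ∈ K D F i := by
  intro T x hne
  by_cases h : ∀ v ∈ T, D.up v x = true
  · rw [res_pos D F c h] at hne
    obtain ⟨h1, h2⟩ := KK_cl hc hne
    exact ⟨⟨h1, h⟩, h2⟩
  · exact absurd (res_neg D F c h) hne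

theorem res_inj (h : Cls G t q) {i : ℕ} {c : Finset V → X → F} (hc : c ∈ KK G (pull F D.a) Set.univ ∅ i)
    (h0 : res D F c = 0) : c = 0 := by
  classical
  have key : ∀ n : ℕ, ∀ T x, (T.filter fun v => D.up v x = false).card = n → c T x = 0 := by
    intro n
    induction n with
    | zero =>
      intro T x hn
      have h1 : ∀ v ∈ T, D.up v x = true := by
        intro v hv
        by_contra h2
        have h3 : v ∈ T.filter fun v => D.up v x = false := mem_filter.2 ⟨hv, by simpa using h2⟩
        rw [card_eq_zero] at hn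
        rw [hn] at h3
        exact absurd h3 (notMem_empty v)
      rw [← res_pos D F c h1, h0]
      rfl
    | succ n ih =>
      intro T x hn
      obtain ⟨v, hv⟩ := card_pos.1 (by rw [hn]; omega)
      obtain ⟨hvT, hvx⟩ := mem_filter.1 hv
      by_contra hne
      obtain ⟨hcl, _⟩ := KK_cl hc hne
      have h1 := KK_anti hc hvT x
      have h2 : c T (D.a v x) = 0 := by
        refine ih T _ ?_
        have h3 : (T.filter fun w => D.up w (D.a v x) = false) = (T.filter fun w => D.up w x = false).erase v := by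
          ext w
          rw [mem_filter, mem_erase, mem_filter]
          by_cases hwv : w = v
          · subst hwv
            rw [D.up_flip, hvx]
            simp
          · constructor
            · rintro ⟨hw, hw2⟩
              rw [D.up_par h (hcl (mem_coe.2 hw) (mem_coe.2 hvT) hwv)] at hw2
              exact ⟨hwv, hw, hw2⟩
            · rintro ⟨_, hw, hw2⟩
              refine ⟨hw, ?_⟩
              rw [D.up_par h (hcl (mem_coe.2 hw) (mem_coe.2 hvT) hwv)]
              exact hw2
        rw [h3, card_erase_of_mem hv, hn]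
        rfl
      rw [h2] at h1
      exact hne (neg_eq_zero.1 h1.symm)
  funext T x
  exact key _ T x rfl

theorem dS_res (h : Cls G t q) {i : ℕ} {c : Finset V → X → F} (hc : c ∈ KK G (pull F D.a) Set.univ ∅ i) :
    dS D F univ (res D F c) = res D F (bd F c) := by
  funext T x
  rw [dS_apply]
  by_cases hT : ∀ v ∈ T, D.up v x = true
  · rw [res_pos D F _ hT, bd_apply, Finset.sum_apply]
    refine sum_congr rfl fun v hv => ?_
    rw [mem_compl] at hv
    rw [if_pos (mem_univ _), Pi.smul_apply]
    congr 1
    by_cases hcl : G.IsClique ((insert v T : Finset V) : Set V)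
    · have hpar : ∀ w ∈ T, D.up w (D.a v x) = D.up w x := fun w hw =>
        D.up_par h (hcl (by simp [hw]) (by simp) fun (e : w = v) => hv (e ▸ hw)) x
      by_cases hvx : D.up v x = true
      · rw [res_pos D F c, res_neg D F c, sub_zero]
        · intro h1
          have h2 := h1 v (mem_insert_self _ _)
          rw [D.up_flip, hvx] at h2
          simp at h2
        · intro w hw
          rcases mem_insert.1 hw with rfl | hw
          · exact hvx
          · exact hT w hw
      · rw [res_neg D F c (fun h1 => hvx (h1 v (mem_insert_self _ _))), res_pos D F c,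
          KK_anti hc (mem_insert_self _ _), zero_sub, neg_neg]
        intro w hw
        rcases mem_insert.1 hw with rfl | hw
        · rw [D.up_flip]
          simpa using hvx
        · rw [hpar w hw]
          exact hT w hw
    · have h1 : ∀ y, c (insert v T) y = 0 := fun y => by
        by_contra h2
        exact hcl (KK_cl hc h2).1
      have h2 : ∀ y, res D F c (insert v T) y = 0 := fun y => by
        by_cases h3 : ∀ w ∈ insert v T, D.up w y = true
        · rw [res_pos D F c h3, h1]
        · exact res_neg D F c h3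
      rw [h1, h2, h2, sub_zero]
  · rw [res_neg D F _ hT]
    refine sum_eq_zero fun v hv => ?_
    rw [mem_compl] at hv
    have h1 : res D F c (insert v T) x = 0 :=
      res_neg D F c fun h2 => hT fun w hw => h2 w (mem_insert_of_mem hw)
    have h2 : res D F c (insert v T) (D.a v x) = 0 := by
      by_cases h3 : ∀ w ∈ insert v T, D.up w (D.a v x) = true
      · rw [res_pos D F c h3]
        by_contra h4
        have hcl := (KK_cl hc h4).1
        refine hT fun w hw => ?_
        have h5 := h3 w (mem_insert_of_mem hw)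
        rwa [D.up_par h] at h5
        exact hcl (by simp [hw]) (by simp) fun e => hv (e ▸ hw)
      · exact res_neg D F c h3
    rw [h1, h2]
    simp

/-- the antisymmetrization over a list of generators -/
def El (D : Act G t X) (l : List V) (f : X → F) : X → F := l.foldr (fun s g => fun x => g x - g (D.a s x)) f

theorem El_cons (s : V) (l : List V) (f : X → F) (x : X) : El D (s :: l) f x = El D l f x - El D l f (D.a s x) := rfl

theorem El_zero (l : List V) : El D l (0 : X → F) = 0 := by
  induction l with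
  | nil => rfl
  | cons s l ih =>
    funext x
    rw [El_cons, ih]
    show (0 : F) - 0 = 0
    rw [sub_zero]

theorem El_anti {l : List V} (hl : ∀ u ∈ l, ∀ v ∈ l, u ≠ v → G.Adj u v) (f : X → F) {v : V} (hv : v ∈ l) (x : X) :
    El D l f (D.a v x) = - El D l f x := by
  induction l generalizing x with
  | nil => simp at hv
  | cons s l ih =>
    have hl' : ∀ u ∈ l, ∀ v ∈ l, u ≠ v → G.Adj u v := fun u hu v hv =>
      hl u (List.mem_cons_of_mem _ hu) v (List.mem_cons_of_mem _ hv)
    rw [El_cons, El_cons]
    by_cases h1 : v = s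
    · subst h1
      rw [D.inv]
      ring
    · have h2 : v ∈ l := (List.mem_cons.1 hv).resolve_left h1
      rw [D.comm s v (hl s (by simp) v hv (Ne.symm h1)), ih hl' h2, ih hl' h2]
      ring

theorem El_van (h : Cls G t q) {l : List V} {s : V} (hl : ∀ u ∈ l, G.Adj s u) {f : X → F}
    (hf : ∀ y, f y ≠ 0 → D.up s y = true) (x : X) (hx : D.up s x = false) : El D l f x = 0 := by
  induction l generalizing x with
  | nil =>
    by_contra h1
    have h2 := hf x h1
    rw [hx] at h2
    exact absurd h2 (by simp)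
  | cons r l ih =>
    have hl' : ∀ u ∈ l, G.Adj s u := fun u hu => hl u (List.mem_cons_of_mem _ hu)
    rw [El_cons, ih hl' x hx, ih hl' _ (by rw [D.up_par h (hl r (by simp))]; exact hx), sub_zero]

theorem El_val (h : Cls G t q) {T : Finset V} (hT : G.IsClique (T : Set V)) {f : X → F}
    (hf : ∀ y, f y ≠ 0 → ∀ v ∈ T, D.up v y = true) (x : X) (hx : ∀ v ∈ T, D.up v x = true) :
    ∀ l : List V, l.Nodup → (∀ u ∈ l, u ∈ T) → El D l f x = f x := by
  intro l
  induction l with
  | nil => intro _ _; rfl
  | cons s l ih =>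
    intro hn hl
    have hs : s ∈ T := hl s (by simp)
    rw [El_cons, ih (List.nodup_cons.1 hn).2 fun u hu => hl u (List.mem_cons_of_mem _ hu),
      El_van h (s := s) (fun u hu => ?_) (fun y hy => hf y hy s hs) _ (by rw [D.up_flip, hx s hs]; rfl), sub_zero]
    exact hT (mem_coe.2 hs) (mem_coe.2 (hl u (List.mem_cons_of_mem _ hu)))
      fun e => (List.nodup_cons.1 hn).1 (e ▸ hu)

theorem res_surj (h : Cls G t q) {i : ℕ} {c : Finset V → X → F} (hc : c ∈ K D F i) :
    ∃ c' ∈ KK G (pull F D.a) Set.univ ∅ i, res D F c' = c := by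
  refine ⟨fun T => El D T.toList (c T), ⟨fun T hT => ?_, fun T v hv => ?_⟩, ?_⟩
  · have h1 : c T = 0 := by
      funext x
      by_contra h2
      exact hT ⟨(hc T x h2).1.1, Set.subset_univ _, (hc T x h2).2⟩
    show El D T.toList (c T) = 0
    rw [h1, El_zero]
  · funext x
    show El D T.toList (c T) (D.a v x) = - El D T.toList (c T) x
    by_cases hcl : G.IsClique (T : Set V)
    · rcases hv with hv | hv
      · refine El_anti (fun u hu w hw huw => hcl ?_ ?_ huw) _ (mem_toList.2 hv) x
        · exact mem_coe.2 (mem_toList.1 hu)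
        · exact mem_coe.2 (mem_toList.1 hw)
      · exact absurd hv (Set.notMem_empty v)
    · have h1 : c T = 0 := by
        funext x
        by_contra h2
        exact hcl (hc T x h2).1.1
      rw [h1, El_zero]
      show (0 : F) = -0
      rw [neg_zero]
  · funext T x
    by_cases hx : ∀ v ∈ T, D.up v x = true
    · rw [res_pos D F _ hx]
      show El D T.toList (c T) x = c T x
      by_cases hcl : G.IsClique (T : Set V)
      · exact El_val h hcl (fun y hy => (hc T y hy).1.2) x hx _ (nodup_toList T) fun u hu => mem_toList.1 hu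
      · have h1 : c T = 0 := by
          funext x
          by_contra h2
          exact hcl (hc T x h2).1.1
        rw [h1, El_zero]
    · rw [res_neg D F _ hx]
      by_contra h1
      exact hx (hc T x (Ne.symm h1)).1.2

theorem KK_map_res (h : Cls G t q) (i : ℕ) : (KK G (pull F D.a) Set.univ ∅ i).map (res D F) = K D F i := by
  apply le_antisymm
  · rintro _ ⟨c, hc, rfl⟩
    exact res_mem hc
  · intro c hc
    obtain ⟨c', h1, h2⟩ := res_surj h hc
    exact ⟨c', h1, h2⟩

theorem finrank_map_of_inj {E : Type} [AddCommGroup E] [Module F E] (N : Submodule F E) (f : E →ₗ[F] E)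
    (hf : ∀ c ∈ N, f c = 0 → c = 0) : finrank F (N.map f) = finrank F N := by
  have h1 : Function.Injective (f.domRestrict N) := by
    rw [injective_iff_map_eq_zero]
    rintro ⟨c, hc⟩ h2
    exact Subtype.ext (hf c hc h2)
  have h2 := LinearMap.finrank_range_of_inj h1
  rwa [LinearMap.range_domRestrict] at h2

theorem finrank_KK (h : Cls G t q) (i : ℕ) :
    finrank F (KK G (pull F D.a) Set.univ ∅ i) = finrank F (K D F i) := by
  rw [← KK_map_res h, finrank_map_of_inj _ _ fun c hc h0 => res_inj h hc h0]

theorem finrank_KK_map [Fintype X] (h : Cls G t q) (i : ℕ) :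
    finrank F ((KK G (pull F D.a) Set.univ ∅ i).map (bd F)) = rk D F univ i := by
  unfold rk
  rw [← KK_map_res h]
  have h1 : ((KK G (pull F D.a) Set.univ ∅ i).map (res D F)).map (dS D F univ) =
      ((KK G (pull F D.a) Set.univ ∅ i).map (bd F)).map (res D F) := by
    rw [← Submodule.map_comp, ← Submodule.map_comp]
    apply le_antisymm
    · rintro _ ⟨c, hc, rfl⟩
      exact ⟨c, hc, (dS_res h hc).symm⟩
    · rintro _ ⟨c, hc, rfl⟩
      exact ⟨c, hc, dS_res h hc⟩
  rw [h1]
  refine (finrank_map_of_inj _ _ ?_).symm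
  rintro _ ⟨c, hc, rfl⟩ h0
  cases i with
  | zero =>
    funext T x
    rw [bd_apply, Finset.sum_apply]
    refine sum_eq_zero fun v hv => ?_
    have h2 : c (insert v T) x = 0 := by
      by_contra h3
      have h4 := (KK_cl hc h3).2
      rw [card_insert_of_notMem (by simpa using hv)] at h4
      omega
    rw [Pi.smul_apply, h2, smul_zero]
  | succ i => exact res_inj h (bd_mem_KK hc) h0

/-- the ascending directions at `x` -/
def ups (D : Act G t X) (x : X) : Set V := {v | D.up v x = true}

/-- exchange of the arguments -/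
def swp (V X F : Type) [Field F] : (Finset V → X → F) ≃ₗ[F] (X → Finset V → F) where
  toFun c x T := c T x
  invFun c T x := c x T
  map_add' _ _ := rfl
  map_smul' _ _ := rfl
  left_inv _ := rfl
  right_inv _ := rfl

theorem finrank_pi_sub {ι E : Type} [Fintype ι] [AddCommGroup E] [Module F E] [FiniteDimensional F E]
    (p : ι → Submodule F E) : finrank F (Submodule.pi Set.univ p) = ∑ i, finrank F (p i) := by
  have e : (Submodule.pi Set.univ p) ≃ₗ[F] (∀ i, p i) :=
    { toFun := fun f i => ⟨f.1 i, f.2 i (Set.mem_univ i)⟩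
      invFun := fun f => ⟨fun i => (f i).1, fun i _ => (f i).2⟩
      map_add' := fun _ _ => rfl
      map_smul' := fun _ _ => rfl
      left_inv := fun _ => rfl
      right_inv := fun _ => rfl }
  rw [e.finrank_eq, finrank_pi_fintype]

theorem mem_KKn {A : Set V} {i : ℕ} {c : Finset V → F} : c ∈ KK G (neg F V) A ∅ i ↔
    ∀ T, c T ≠ 0 → G.IsClique (T : Set V) ∧ (T : Set V) ⊆ A ∧ T.card = i := by
  constructor
  · intro h T hne
    by_contra h1
    exact hne (h.1 T h1)
  · intro h
    refine ⟨fun T hT => ?_, fun T v _ => rfl⟩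
    by_contra h1
    exact hT (h T h1)

theorem K_split (i : ℕ) : (K D F i).map (swp V X F : (Finset V → X → F) →ₗ[F] (X → Finset V → F)) =
    Submodule.pi Set.univ fun x => KK G (neg F V) (ups D x) ∅ i := by
  apply le_antisymm
  · rintro _ ⟨c, hc, rfl⟩ x _
    show (fun T => c T x) ∈ KK G (neg F V) (ups D x) ∅ i
    rw [mem_KKn]
    intro T hne
    obtain ⟨⟨h1, h2⟩, h3⟩ := hc T x hne
    exact ⟨h1, fun v hv => h2 v hv, h3⟩
  · intro c hc
    refine ⟨fun T x => c x T, fun T x hne => ?_, rfl⟩
    obtain ⟨h1, h2, h3⟩ := mem_KKn.1 (hc x (Set.mem_univ x)) T hne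
    exact ⟨⟨h1, fun v hv => h2 hv⟩, h3⟩

theorem dS_empty (c : Finset V → X → F) (x : X) : (fun T => dS D F ∅ c T x) = bd F (fun T => c T x) := by
  funext T
  rw [dS_apply, bd_apply]
  refine sum_congr rfl fun v _ => ?_
  rw [if_neg (notMem_empty _), sub_zero]

theorem K_split_map (i : ℕ) :
    ((K D F i).map (dS D F ∅)).map (swp V X F : (Finset V → X → F) →ₗ[F] (X → Finset V → F)) =
      Submodule.pi Set.univ fun x => (KK G (neg F V) (ups D x) ∅ i).map (bd F) := by
  apply le_antisymm
  · rintro _ ⟨_, ⟨c, hc, rfl⟩, rfl⟩ x _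
    refine ⟨fun T => c T x, ?_, ?_⟩
    · have h1 : (swp V X F c) ∈ Submodule.pi Set.univ fun x => KK G (neg F V) (ups D x) ∅ i := by
        rw [← K_split]
        exact ⟨c, hc, rfl⟩
      exact h1 x (Set.mem_univ x)
    · exact (dS_empty c x).symm
  · intro c hc
    have h1 : ∀ x, ∃ b ∈ KK G (neg F V) (ups D x) ∅ i, bd F b = c x := fun x => hc x (Set.mem_univ x)
    choose b hb1 hb2 using h1
    have h2 : b ∈ (K D F i).map (swp V X F : (Finset V → X → F) →ₗ[F] (X → Finset V → F)) := by
      rw [K_split]
      exact fun x _ => hb1 x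
    obtain ⟨b', hb', h3⟩ := h2
    refine ⟨dS D F ∅ b', ⟨b', hb', rfl⟩, ?_⟩
    funext x
    show (fun T => dS D F ∅ b' T x) = c x
    rw [dS_empty, ← hb2]
    congr 1
    rw [← h3]
    rfl

theorem finrank_K [Fintype X] (i : ℕ) :
    finrank F (K D F i) = ∑ x, finrank F (KK G (neg F V) (ups D x) ∅ i) := by
  rw [← finrank_pi_sub, ← K_split]
  exact ((swp V X F).finrank_map_eq _).symm

theorem rk_empty [Fintype X] (i : ℕ) :
    rk D F ∅ i = ∑ x, finrank F ((KK G (neg F V) (ups D x) ∅ i).map (bd F)) := by
  rw [← finrank_pi_sub, ← K_split_map]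
  exact ((swp V X F).finrank_map_eq _).symm

/-- **The comparison.** -/
theorem beta_compare [Fintype X] (h : Cls G t q) {R : ℕ}
    (hR : ∀ κ, t κ = κ → ∀ x, ∀ j, 0 < j → j < R → ((tr D q κ) ^ j) x ≠ x) (i : ℕ) :
    |(R : ℤ) * (beta G (pull F D.a) Set.univ ∅ i - ∑ x, (beta G (neg F V) (ups D x) ∅ i : ℤ))| ≤
      2 * Fintype.card V * 2 ^ Fintype.card V * Fintype.card X := by
  have h1 := beta_add G (pull F D.a) Set.univ ∅ i
  have h2 : ∀ x, _ := fun x => beta_add G (neg F V) (ups D x) ∅ i
  have h3 := Finset.sum_congr (s₁ := univ) rfl fun x (_ : x ∈ univ) => h2 x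
  rw [sum_add_distrib, sum_add_distrib, ← rk_empty, ← rk_empty, ← finrank_K] at h3
  rw [finrank_KK_map h, finrank_KK_map h, finrank_KK h] at h1
  obtain ⟨a1, a2⟩ := rk_all (D := D) h F hR i univ
  obtain ⟨b1, b2⟩ := rk_all (D := D) h F hR (i + 1) univ
  rw [card_univ] at a1 a2 b1 b2
  obtain ⟨B, hB⟩ : ∃ B : ℕ, B = ∑ x, beta G (neg F V) (ups D x) ∅ i := ⟨_, rfl⟩
  have hB' : (∑ x, (beta G (neg F V) (ups D x) ∅ i : ℤ)) = (B : ℤ) := by
    rw [hB]; push_cast; rfl
  rw [hB', ← mul_assoc] at *
  rw [← hB] at h3
  zify at h1 h3 a1 a2 b1 b2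
  rw [abs_le]
  constructor
  · have : (R : ℤ) * ((beta G (pull F D.a) Set.univ ∅ i : ℤ) - B) =
        ((R : ℤ) * rk D F ∅ i - R * rk D F univ i) + ((R : ℤ) * rk D F ∅ (i + 1) - R * rk D F univ (i + 1)) := by
      have h5 : (beta G (pull F D.a) Set.univ ∅ i : ℤ) - B =
        (rk D F ∅ i - rk D F univ i) + (rk D F ∅ (i + 1) - rk D F univ (i + 1)) := by linarith
      rw [h5]; ring
    rw [this]
    linarith
  · have : (R : ℤ) * ((beta G (pull F D.a) Set.univ ∅ i : ℤ) - B) =
        ((R : ℤ) * rk D F ∅ i - R * rk D F univ i) + ((R : ℤ) * rk D F ∅ (i + 1) - R * rk D F univ (i + 1)) := by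
      have h5 : (beta G (pull F D.a) Set.univ ∅ i : ℤ) - B =
        (rk D F ∅ i - rk D F univ i) + (rk D F ∅ (i + 1) - rk D F univ (i + 1)) := by linarith
      rw [h5]; ring
    rw [this]
    linarith

end

end Pool.Agent.H815.HG
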