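import Pool.Agent.H815.HG.Cell
import Pool.Agent.H815.TW.Cox
import Pool.Agent.H815.TW.Van

/-!
# The homology growth of a right-angled Coxeter group
-/

set_option autoImplicit false
set_option linter.unusedSectionVars false
set_option linter.unusedVariables false

namespace Pool.Agent.H815.HG

open Finset Pool.Agent.W907.SG Pool.Agent.H815.TW Module Pool.Agent.R703.MO

/-- the action of the generators on the cosets of `H` -/
noncomputable def co {V : Type} (G : SimpleGraph V) (H : Subgroup (W G)) (v : V) (x : W G ⧸ H) : W G ⧸ H :=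
  (cox G).simple v • x

/-- the `i`-th Betti number of the quotient of the Davis complex by `H` -/
noncomputable def betti {V : Type} [Fintype V] [LinearOrder V] (G : SimpleGraph V) (F : Type) [Field F]
    (H : Subgroup (W G)) (i : ℕ) : ℕ := beta G (pull F (co G H)) Set.univ ∅ i

/-- the `i`-th number of the full subcomplex on `A`: the dimension of its reduced homology in degree `i - 1` -/
noncomputable def red {V : Type} [Fintype V] [LinearOrder V] (G : SimpleGraph V) (F : Type) [Field F]
    (A : Set V) (i : ℕ) : ℕ := beta G (neg F V) A ∅ i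

/-- the representatives of the classes outside `S`, and the other vertices of the classes in `S` -/
def asc {V : Type} (t : V → V) (S : Finset V) : Set V := {v | (v = t v ∧ t v ∉ S) ∨ (v ≠ t v ∧ t v ∈ S)}

theorem exists_cls {V : Type} [Finite V] {G : SimpleGraph V} (h : Dom G) : ∃ t q : V → V, Cls G t q := by
  obtain ⟨t, p, ht1, ht2, hp1, hp2, hp3⟩ := exists_classes h
  refine ⟨t, fun v => p (t v), ht1, ht2, fun v => ?_, fun v => ?_, fun v => ?_, fun v => hp1 (t v)⟩
  · show t (p (t v)) = t v
    rw [hp2, ht2]
  · show p (t (t v)) = p (t v)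
    rw [ht2]
  · intro h1
    have h2 := hp3 (t v)
    rw [ht2] at h2
    exact h2.1 h1 rfl

section

variable {V : Type} (G : SimpleGraph V)

theorem simple_sq (v : V) : (cox G).simple v * (cox G).simple v = 1 :=
  (cox G).toCoxeterSystem.simple_mul_simple_self v

open Classical in
/-- the images of the generators -/
noncomputable def pim (t : V → V) (v : V) : V → ℤˣ := fun w => if w = t v then -1 else 1

theorem pim_lift (t : V → V) : (cox G).IsLiftable (pim t) := by
  classical
  have hsq : ∀ u, pim t u * pim t u = 1 := by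
    intro u
    funext w
    rw [Pi.mul_apply, Pi.one_apply]
    unfold pim
    split_ifs <;> rfl
  intro u w
  have hM : cox G u w = if u = w then 1 else if G.Adj u w then 2 else 0 := by
    show (if u = w then 1 else if G.Adj u w then 2 else 0) = _
    congr
  rw [hM]
  by_cases h1 : u = w
  · rw [if_pos h1, h1, pow_one, hsq]
  · rw [if_neg h1]
    by_cases h2 : G.Adj u w
    · rw [if_pos h2, mul_pow, pow_two, pow_two, hsq, hsq, one_mul]
    · rw [if_neg h2, pow_zero]

/-- the parities of the classes -/
noncomputable def par (t : V → V) : W G →* (V → ℤˣ) := (cox G).toCoxeterSystem.lift ⟨pim t, pim_lift G t⟩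

theorem par_simple (t : V → V) (u : V) : par G t ((cox G).simple u) = pim t u :=
  (cox G).toCoxeterSystem.lift_apply_simple (pim_lift G t) u

theorem par_comm (t : V → V) {g : W G} (hg : g ∈ commutator (W G)) : par G t g = 1 :=
  MonoidHom.mem_ker.1 (Abelianization.commutator_subset_ker (par G t) hg)

/-- the parities of a coset -/
noncomputable def pst (t : V → V) {H : Subgroup (W G)} (hH : H ≤ commutator (W G)) (y : V → ℤˣ) :
    W G ⧸ H → (V → ℤˣ) :=
  Quotient.lift (fun g => par G t g * y) fun a b hab => by
    have h1 : a⁻¹ * b ∈ H := QuotientGroup.leftRel_apply.1 hab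
    have h2 := par_comm G t (hH h1)
    rw [map_mul, map_inv, inv_mul_eq_one] at h2
    show par G t a * y = par G t b * y
    rw [h2]

theorem pst_mk (t : V → V) {H : Subgroup (W G)} (hH : H ≤ commutator (W G)) (y : V → ℤˣ) (g : W G) :
    pst G t hH y (QuotientGroup.mk g) = par G t g * y := rfl

theorem pst_co (t : V → V) {H : Subgroup (W G)} (hH : H ≤ commutator (W G)) (y : V → ℤˣ) (v : V) (x : W G ⧸ H) :
    pst G t hH y (co G H v x) = pim t v * pst G t hH y x := by
  induction x using QuotientGroup.induction_on with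
  | H g =>
    show par G t ((cox G).simple v * g) * y = _
    rw [map_mul, par_simple, mul_assoc]
    rfl

open Classical in
/-- the states of the cosets -/
noncomputable def dact {t q : V → V} (h : Cls G t q) {H : Subgroup (W G)} (hH : H ≤ commutator (W G))
    (y : V → ℤˣ) : Act G t (W G ⧸ H) where
  a := co G H
  st κ x := decide (pst G t hH y x κ = -1)
  inv v x := by
    show (cox G).simple v • ((cox G).simple v • x) = x
    rw [smul_smul, simple_sq, one_smul]
  comm u v huv x := by
    show (cox G).simple u • ((cox G).simple v • x) = (cox G).simple v • ((cox G).simple u • x)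
    rw [smul_smul, smul_smul, (simple_comm G huv).eq]
  st_self v x := by
    rw [pst_co, Pi.mul_apply]
    have h1 : pim t v (t v) = -1 := if_pos rfl
    rw [h1]
    rcases Int.units_eq_one_or (pst G t hH y x (t v)) with h2 | h2 <;> rw [h2] <;> decide
  st_ne u v x huv := by
    rw [pst_co, Pi.mul_apply]
    have h1 : pim t v (t u) = 1 := if_neg huv
    rw [h1, one_mul]

theorem dact_a {t q : V → V} (h : Cls G t q) {H : Subgroup (W G)} (hH : H ≤ commutator (W G)) (y : V → ℤˣ) :
    (dact G h hH y).a = co G H := rfl

theorem ups_dact {t q : V → V} [Fintype V] [LinearOrder V] (h : Cls G t q) {H : Subgroup (W G)}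
    (hH : H ≤ commutator (W G)) (y : V → ℤˣ) (x : W G ⧸ H) :
    ups (dact G h hH y) x = asc t (univ.filter fun κ => pst G t hH y x κ = -1) := by
  ext v
  show (if v = t v then !(decide (pst G t hH y x (t v) = -1)) else decide (pst G t hH y x (t v) = -1)) = true ↔
    (v = t v ∧ t v ∉ univ.filter fun κ => pst G t hH y x κ = -1) ∨
      (v ≠ t v ∧ t v ∈ univ.filter fun κ => pst G t hH y x κ = -1)
  rw [mem_filter]
  by_cases h1 : v = t v
  · rw [if_pos h1]
    simp only [Bool.not_eq_true', decide_eq_false_iff_not, mem_univ, true_and]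
    exact ⟨fun h2 => Or.inl ⟨h1, h2⟩, fun h2 => h2.elim (fun h3 => h3.2) fun h3 => absurd h1 h3.1⟩
  · rw [if_neg h1]
    simp only [decide_eq_true_eq, mem_univ, true_and]
    exact ⟨fun h2 => Or.inr ⟨h1, h2⟩, fun h2 => h2.elim (fun h3 => absurd h3.1 h1) fun h3 => h3.2⟩

/-- the sets of vertices and the systems of signs -/
noncomputable def sgn_equiv (V : Type) [Fintype V] [DecidableEq V] : (V → ℤˣ) ≃ Finset V where
  toFun y := univ.filter fun κ => y κ = -1
  invFun S κ := if κ ∈ S then -1 else 1
  left_inv y := by
    funext κ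
    simp only [mem_filter, mem_univ, true_and]
    rcases Int.units_eq_one_or (y κ) with h2 | h2 <;> rw [h2] <;> decide
  right_inv S := by
    ext κ
    simp only [mem_filter, mem_univ, true_and]
    by_cases h : κ ∈ S
    · simp [h]
    · rw [if_neg h]
      exact ⟨fun h2 => absurd h2 (by decide), fun h2 => absurd h2 h⟩

end

section

variable {V : Type} [Fintype V] [LinearOrder V] (G : SimpleGraph V)

theorem tr_pow {t q : V → V} (h : Cls G t q) {H : Subgroup (W G)} (hH : H ≤ commutator (W G)) (y : V → ℤˣ) (κ : V)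
    (j : ℕ) (g : W G) : ((HG.tr (dact G h hH y) q κ) ^ j) (QuotientGroup.mk g) =
      QuotientGroup.mk (((cox G).simple κ * (cox G).simple (q κ)) ^ j * g) := by
  induction j with
  | zero => rw [pow_zero, pow_zero, one_mul]; rfl
  | succ j ih =>
    rw [pow_succ', Equiv.Perm.mul_apply, ih, HG.tr_apply, dact_a, pow_succ', mul_assoc, mul_assoc]
    rfl

/-- no conjugate of a small power of the product of two generators which are not adjacent lies in `H` -/
def Far (G : SimpleGraph V) (R : ℕ) (H : Subgroup (W G)) : Prop :=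
  ∀ u v, u ≠ v → ¬ G.Adj u v → ∀ j, 0 < j → j < R → ∀ g : W G,
    g * ((cox G).simple u * (cox G).simple v) ^ j * g⁻¹ ∉ H

theorem cond_of_far {t q : V → V} (h : Cls G t q) {H : Subgroup (W G)} (hH : H ≤ commutator (W G)) (y : V → ℤˣ)
    {R : ℕ} (hR : Far G R H) : ∀ κ, t κ = κ → ∀ x, ∀ j, 0 < j → j < R →
      ((HG.tr (dact G h hH y) q κ) ^ j) x ≠ x := by
  intro κ hκ x j h0 hj
  induction x using QuotientGroup.induction_on with
  | H g =>
    rw [tr_pow]
    intro h1
    have h2 : g⁻¹ * ((((cox G).simple κ * (cox G).simple (q κ)) ^ j) * g) ∈ H := QuotientGroup.eq.1 h1.symm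
    have hne : κ ≠ q κ := fun e => h.qne κ (by rw [← e, hκ])
    refine hR κ (q κ) hne (h.not_adj (by rw [h.tq])) j h0 hj g⁻¹ ?_
    rw [inv_inv, mul_assoc]
    exact h2

/-- **The homology growth.** -/
theorem growth {t q : V → V} (h : Cls G t q) (F : Type) [Field F] (i : ℕ) (R : ℕ) (H : Subgroup (W G))
    (hf : H.FiniteIndex) (hH : H ≤ commutator (W G)) (hR : Far G R H) :
    |(R : ℤ) * (2 ^ Fintype.card V * betti G F H i - H.index * ∑ S : Finset V, (red G F (asc t S) i : ℤ))| ≤
      2 ^ Fintype.card V * (2 * Fintype.card V * 2 ^ Fintype.card V * H.index) := by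
  classical
  have hfin : Finite (W G ⧸ H) := Subgroup.finite_quotient_of_finiteIndex
  obtain ⟨_⟩ := nonempty_fintype (W G ⧸ H)
  have hcard : (Fintype.card (W G ⧸ H) : ℤ) = H.index := by
    rw [← Nat.card_eq_fintype_card]
    rfl
  have h1 : ∀ y : V → ℤˣ, |(R : ℤ) * (betti G F H i -
      ∑ x, (red G F (asc t (univ.filter fun κ => pst G t hH y x κ = -1)) i : ℤ))| ≤
      2 * Fintype.card V * 2 ^ Fintype.card V * H.index := by
    intro y
    have h2 := beta_compare (F := F) (D := dact G h hH y) h (cond_of_far G h hH y hR) i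
    rw [hcard] at h2
    have h3 : ∀ x, (beta G (neg F V) (ups (dact G h hH y) x) ∅ i : ℤ) =
        (red G F (asc t (univ.filter fun κ => pst G t hH y x κ = -1)) i : ℤ) := by
      intro x
      rw [ups_dact]
      rfl
    rw [sum_congr rfl fun x _ => h3 x] at h2
    exact h2
  have h2 : ∑ y : V → ℤˣ, (R : ℤ) * (betti G F H i -
      ∑ x, (red G F (asc t (univ.filter fun κ => pst G t hH y x κ = -1)) i : ℤ)) =
      (R : ℤ) * (2 ^ Fintype.card V * betti G F H i - H.index * ∑ S : Finset V, (red G F (asc t S) i : ℤ)) := by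
    rw [← mul_sum, sum_sub_distrib, sum_const, card_univ, nsmul_eq_mul, Fintype.card_fun]
    have hc2 : Fintype.card ℤˣ = 2 := rfl
    rw [hc2, sum_comm]
    have h3 : ∀ x : W G ⧸ H, ∑ y : V → ℤˣ,
        (red G F (asc t (univ.filter fun κ => pst G t hH y x κ = -1)) i : ℤ) =
        ∑ S : Finset V, (red G F (asc t S) i : ℤ) := by
      intro x
      induction x using QuotientGroup.induction_on with
      | H g =>
        refine Fintype.sum_equiv ((Equiv.mulLeft (par G t g)).trans (sgn_equiv V)) _ _ fun y => ?_
        rfl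
    rw [sum_congr rfl fun x _ => h3 x, sum_const, card_univ, nsmul_eq_mul, hcard]
    push_cast
    ring
  rw [← h2]
  refine (abs_sum_le_sum_abs _ _).trans ((sum_le_sum fun y _ => h1 y).trans ?_)
  rw [sum_const, card_univ, nsmul_eq_mul, Fintype.card_fun]
  have hc2 : Fintype.card ℤˣ = 2 := rfl
  rw [hc2]
  push_cast
  exact le_rfl

end

end Pool.Agent.H815.HG
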