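import Pool.Graph.R_seed8.W907.SG.Defs
import Pool.Agent.H815.TW.Defs

/-!
# The chain complexes of a right-angled Coxeter group and their local parts
-/

set_option autoImplicit false
set_option linter.unusedSectionVars false

namespace Pool.Agent.H815.HG

open Finset Pool.Agent.W907.SG Pool.Agent.H815.TW

/-- A division of the vertices into classes: `t v` is the representative of the class of `v`, it dominates `v`; and
the class contains a second vertex `q v` which dominates all its vertices. -/
structure Cls {V : Type} (G : SimpleGraph V) (t q : V → V) : Prop where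
  le : ∀ v, Le G v (t v)
  idem : ∀ v, t (t v) = t v
  tq : ∀ v, t (q v) = t v
  qt : ∀ v, q (t v) = q v
  qne : ∀ v, q v ≠ t v
  qle : ∀ v, Le G (t v) (q v)

/-- A set `X` on which the generators act by involutions, which commute for adjacent vertices, with a state
`st (t v) x` of every class, which is changed by the generators of the class only. -/
structure Act {V : Type} (G : SimpleGraph V) (t : V → V) (X : Type) where
  a : V → X → X
  st : V → X → Bool
  inv : ∀ v x, a v (a v x) = x
  comm : ∀ u v, G.Adj u v → ∀ x, a u (a v x) = a v (a u x)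
  st_self : ∀ v x, st (t v) (a v x) = !(st (t v) x)
  st_ne : ∀ u v x, t u ≠ t v → st (t u) (a v x) = st (t u) x

/-- vertices of one class are not adjacent -/
theorem Cls.not_adj {V : Type} {G : SimpleGraph V} {t q : V → V} (h : Cls G t q) {u v : V} (e : t u = t v) :
    ¬ G.Adj u v := by
  intro h1
  have h2 : G.Adj (t u) v := h.le u v h1
  rw [e] at h2
  exact (h.le v (t v) h2.symm).ne rfl

section

variable {V : Type} [Fintype V] [LinearOrder V] {X : Type} {G : SimpleGraph V} {t q : V → V}

/-- the direction of the edge from `x` to `a v x` -/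
def Act.up (D : Act G t X) (v : V) (x : X) : Bool := if v = t v then !(D.st (t v) x) else D.st (t v) x

theorem Act.up_flip (D : Act G t X) (v : V) (x : X) : D.up v (D.a v x) = !(D.up v x) := by
  unfold Act.up
  rw [D.st_self]
  split_ifs <;> rfl

theorem Act.up_par (D : Act G t X) (h : Cls G t q) {u v : V} (huv : G.Adj u v) (x : X) :
    D.up u (D.a v x) = D.up u x := by
  have h1 : t u ≠ t v := fun e => h.not_adj e huv
  unfold Act.up
  rw [D.st_ne u v x h1]

/-- the next direction -/
def nx (t q : V → V) (u : V) : V := if u = t u then q u else t u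

theorem t_nx (h : Cls G t q) (u : V) : t (nx t q u) = t u := by
  unfold nx
  split_ifs
  · exact h.tq u
  · exact h.idem u

theorem nx_ne (h : Cls G t q) (u : V) : nx t q u ≠ u := by
  unfold nx
  split_ifs with h1
  · intro h2
    exact h.qne u (by rw [h2]; exact h1)
  · exact fun h2 => h1 h2.symm

theorem nx_le (h : Cls G t q) (u : V) : Le G u (nx t q u) := by
  unfold nx
  split_ifs with h1
  · intro w hw
    refine h.qle u w ?_
    rwa [← h1]
  · exact h.le u

theorem up_nx (h : Cls G t q) (D : Act G t X) {u : V} {y : X} (hu : D.up u y = true) :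
    D.up (nx t q u) (D.a u y) = true := by
  unfold nx Act.up at *
  by_cases h1 : u = t u
  · rw [if_pos h1] at hu
    rw [if_pos h1, if_neg (by rw [h.tq]; exact h.qne u), h.tq, D.st_self]
    exact hu
  · rw [if_neg h1] at hu
    rw [if_neg h1, if_pos (by rw [h.idem]), h.idem, D.st_self, hu]
    rfl

/-- the chains: functions of a clique `T` and a point `x` such that all the directions of `T` are ascending at `x` -/
def KA (D : Act G t X) (F : Type) [Field F] : Submodule F (Finset V → X → F) where
  carrier := {c | ∀ T x, c T x ≠ 0 → G.IsClique (T : Set V) ∧ ∀ v ∈ T, D.up v x = true}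
  add_mem' := by
    intro c d hc hd T x hne
    by_cases h1 : c T x = 0
    · refine hd T x fun h2 => hne ?_
      show c T x + d T x = 0
      rw [h1, h2, add_zero]
    · exact hc T x h1
  zero_mem' := fun T x h => absurd rfl h
  smul_mem' := by
    intro r c hc T x hne
    refine hc T x fun h1 => hne ?_
    show r * c T x = 0
    rw [h1, mul_zero]

/-- the chains of degree `i` -/
def K (D : Act G t X) (F : Type) [Field F] (i : ℕ) : Submodule F (Finset V → X → F) where
  carrier := {c | ∀ T x, c T x ≠ 0 → (G.IsClique (T : Set V) ∧ ∀ v ∈ T, D.up v x = true) ∧ T.card = i}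
  add_mem' := by
    intro c d hc hd T x hne
    by_cases h1 : c T x = 0
    · refine hd T x fun h2 => hne ?_
      show c T x + d T x = 0
      rw [h1, h2, add_zero]
    · exact hc T x h1
  zero_mem' := fun T x h => absurd rfl h
  smul_mem' := by
    intro r c hc T x hne
    refine hc T x fun h1 => hne ?_
    show r * c T x = 0
    rw [h1, mul_zero]

theorem K_le (D : Act G t X) (F : Type) [Field F] (i : ℕ) : K D F i ≤ KA D F := fun _ hc T x h => (hc T x h).1

/-- the boundary operator in which the upper faces are taken for the classes in `S` only -/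
def dS (D : Act G t X) (F : Type) [Field F] (S : Finset V) :
    (Finset V → X → F) →ₗ[F] (Finset V → X → F) where
  toFun c T x := ∑ v ∈ Tᶜ, (sg v T : ℤ) • (c (insert v T) x - if t v ∈ S then c (insert v T) (D.a v x) else 0)
  map_add' c d := by
    funext T x
    rw [Pi.add_apply, Pi.add_apply, ← sum_add_distrib]
    refine sum_congr rfl fun v _ => ?_
    rw [← smul_add]
    congr 1
    simp only [Pi.add_apply]
    split_ifs <;> ring
  map_smul' r c := by
    funext T x
    rw [Pi.smul_apply, Pi.smul_apply, RingHom.id_apply, smul_eq_mul, mul_sum]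
    refine sum_congr rfl fun v _ => ?_
    rw [mul_smul_comm]
    congr 1
    simp only [Pi.smul_apply, smul_eq_mul]
    split_ifs <;> ring

theorem dS_apply (D : Act G t X) (F : Type) [Field F] (S : Finset V) (c : Finset V → X → F) (T : Finset V) (x : X) :
    dS D F S c T x =
      ∑ v ∈ Tᶜ, (sg v T : ℤ) • (c (insert v T) x - if t v ∈ S then c (insert v T) (D.a v x) else 0) := rfl

theorem dS_mem {D : Act G t X} (h : Cls G t q) {F : Type} [Field F] (S : Finset V) {i : ℕ} {c : Finset V → X → F}
    (hc : c ∈ K D F (i + 1)) : dS D F S c ∈ K D F i := by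
  intro T x hne
  rw [dS_apply] at hne
  obtain ⟨v, hv, h1⟩ := exists_ne_zero_of_sum_ne_zero hne
  rw [mem_compl] at hv
  have h2 : c (insert v T) x ≠ 0 ∨ c (insert v T) (D.a v x) ≠ 0 := by
    by_contra h3
    push Not at h3
    apply h1
    rw [h3.1, h3.2]
    simp
  have hcl : ∀ y, c (insert v T) y ≠ 0 → G.IsClique ((T : Finset V) : Set V) ∧ T.card = i ∧ ∀ w ∈ T, D.up w y = true := by
    intro y hy
    obtain ⟨⟨h3, h4⟩, h5⟩ := hc _ _ hy
    refine ⟨h3.subset (by simp), ?_, fun w hw => h4 w (mem_insert_of_mem hw)⟩
    rw [card_insert_of_notMem hv] at h5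
    omega
  rcases h2 with h2 | h2
  · obtain ⟨h3, h4, h5⟩ := hcl _ h2
    exact ⟨⟨h3, h5⟩, h4⟩
  · obtain ⟨h3, h4, h5⟩ := hcl _ h2
    refine ⟨⟨h3, fun w hw => ?_⟩, h4⟩
    have h6 := h5 w hw
    rwa [D.up_par h] at h6
    obtain ⟨⟨h7, _⟩, _⟩ := hc _ _ h2
    exact h7 (by simp [hw]) (by simp) fun e => hv (e ▸ hw)

theorem dS_memA {D : Act G t X} (h : Cls G t q) {F : Type} [Field F] (S : Finset V) {c : Finset V → X → F}
    (hc : c ∈ KA D F) : dS D F S c ∈ KA D F := by
  intro T x hne
  rw [dS_apply] at hne
  obtain ⟨v, hv, h1⟩ := exists_ne_zero_of_sum_ne_zero hne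
  rw [mem_compl] at hv
  have h2 : c (insert v T) x ≠ 0 ∨ c (insert v T) (D.a v x) ≠ 0 := by
    by_contra h3
    push Not at h3
    apply h1
    rw [h3.1, h3.2]
    simp
  have hcl : ∀ y, c (insert v T) y ≠ 0 → G.IsClique ((T : Finset V) : Set V) ∧ ∀ w ∈ T, D.up w y = true := by
    intro y hy
    obtain ⟨h3, h4⟩ := hc _ _ hy
    exact ⟨h3.subset (by simp), fun w hw => h4 w (mem_insert_of_mem hw)⟩
  rcases h2 with h2 | h2
  · exact hcl _ h2
  · obtain ⟨h3, h5⟩ := hcl _ h2
    refine ⟨h3, fun w hw => ?_⟩
    have h6 := h5 w hw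
    rwa [D.up_par h] at h6
    obtain ⟨h7, _⟩ := hc _ _ h2
    exact h7 (by simp [hw]) (by simp) fun e => hv (e ▸ hw)

/-- `K D F 0` has boundary zero -/
theorem dS_zero {D : Act G t X} {F : Type} [Field F] (S : Finset V) {c : Finset V → X → F}
    (hc : c ∈ K D F 0) : dS D F S c = 0 := by
  funext T x
  rw [dS_apply]
  refine sum_eq_zero fun v hv => ?_
  have h1 : ∀ y, c (insert v T) y = 0 := by
    intro y
    by_contra h2
    have h3 := (hc _ _ h2).2
    rw [mem_compl] at hv
    rw [card_insert_of_notMem hv] at h3
    omega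
  rw [h1, h1]
  simp

end

end Pool.Agent.H815.HG
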