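import Pool.Agent.H815.HG.Cox
import Pool.Agent.H815.TW.Main

/-!
# Residual chains
-/

set_option autoImplicit false
set_option linter.unusedSectionVars false
set_option linter.unusedVariables false

namespace Pool.Agent.H815.HG

open Finset Pool.Agent.W907.SG Pool.Agent.H815.TW Module Pool.Agent.R703.MO

section

variable {V : Type} (G : SimpleGraph V)

/-- the product of two generators which are not adjacent has infinite order -/
theorem pow_ne_one {u v : V} (huv : u ≠ v) (h : ¬ G.Adj u v) {j : ℕ} (hj : 0 < j) :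
    ((cox G).simple u * (cox G).simple v) ^ j ≠ 1 := by
  intro h1
  have h2 : line G h (((cox G).simple u * (cox G).simple v) ^ j) 0 = (1 : Equiv.Perm ℤ) 0 := by
    rw [h1, map_one]
  have e1 : img u v u = ra := by
    unfold img
    rw [if_pos rfl]
  have e2 : img u v v = rb := by
    unfold img
    rw [if_neg fun e => huv e.symm, if_pos rfl]
  rw [map_pow, map_mul, line_simple, line_simple, e1, e2, ← alt_even, alt_ra_rb] at h2
  have h3 : ((2 * j : ℕ) : ℤ) + (-1) ^ (2 * j) * 0 = 0 := h2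
  push_cast at h3
  omega

/-- the elements of a residual chain move far away -/
theorem far_of_chain [Finite V] {Γ : ℕ → Subgroup (W G)} (hanti : Antitone Γ) (hf : (Γ 0).FiniteIndex)
    (hn : ∀ k, ∀ g ∈ Γ 0, ∀ x ∈ Γ k, g * x * g⁻¹ ∈ Γ k) (hbot : ⨅ k, Γ k = ⊥) (R : ℕ) :
    ∃ k0, ∀ k, k0 ≤ k → Far G R (Γ k) := by
  classical
  have hfin : Finite (W G ⧸ Γ 0) := Subgroup.finite_quotient_of_finiteIndex
  let I : Type := {p : (W G ⧸ Γ 0) × V × V × Fin R // p.2.1 ≠ p.2.2.1 ∧ ¬ G.Adj p.2.1 p.2.2.1 ∧ 0 < p.2.2.2.val}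
  let b : I → W G := fun p => p.1.1.out⁻¹ * ((cox G).simple p.1.2.1 * (cox G).simple p.1.2.2.1) ^ p.1.2.2.2.val * p.1.1.out
  have hb : ∀ p : I, ∃ k, b p ∉ Γ k := by
    intro p
    by_contra h1
    push Not at h1
    have h2 : b p ∈ ⨅ k, Γ k := Subgroup.mem_iInf.2 h1
    rw [hbot, Subgroup.mem_bot] at h2
    refine pow_ne_one G p.2.1 p.2.2.1 p.2.2.2 ?_
    have h3 : p.1.1.out * b p * p.1.1.out⁻¹ = 1 := by rw [h2]; group
    rw [← h3]
    show _ = p.1.1.out * (p.1.1.out⁻¹ * _ * p.1.1.out) * p.1.1.out⁻¹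
    group
  choose K hK using hb
  obtain ⟨k0, hk0⟩ := (Set.finite_range K).bddAbove
  refine ⟨k0, fun k hk u v huv hadj j h0 hj g hmem => ?_⟩
  obtain ⟨c, hc⟩ : ∃ c : W G ⧸ Γ 0, c = QuotientGroup.mk g⁻¹ := ⟨_, rfl⟩
  have h1 : g * c.out ∈ Γ 0 := by
    have h2 : (QuotientGroup.mk g⁻¹ : W G ⧸ Γ 0) = QuotientGroup.mk c.out := by
      rw [← hc]
      exact (Quotient.out_eq' c).symm
    have h3 := QuotientGroup.eq.1 h2
    rwa [inv_inv] at h3
  have h2 := hn k _ ((Γ 0).inv_mem h1) _ hmem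
  have h3 : (g * c.out)⁻¹ * (g * ((cox G).simple u * (cox G).simple v) ^ j * g⁻¹) * ((g * c.out)⁻¹)⁻¹ =
      b ⟨(c, u, v, ⟨j, hj⟩), huv, hadj, h0⟩ := by
    show _ = c.out⁻¹ * ((cox G).simple u * (cox G).simple v) ^ j * c.out
    group
  rw [h3] at h2
  exact hK _ (hanti ((hk0 (Set.mem_range_self _)).trans hk) h2)

end

section

variable {V : Type} [Fintype V] [LinearOrder V] (G : SimpleGraph V)

open Filter Topology

/-- **The homology growth along residual chains.** -/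
theorem growth_chain {t q : V → V} (h : Cls G t q) (F : Type) [Field F] (i : ℕ) {Γ : ℕ → Subgroup (W G)}
    (hanti : Antitone Γ) (hf : ∀ k, (Γ k).FiniteIndex) (hc : Γ 0 ≤ commutator (W G))
    (hn : ∀ k, ∀ g ∈ Γ 0, ∀ x ∈ Γ k, g * x * g⁻¹ ∈ Γ k) (hbot : ⨅ k, Γ k = ⊥) :
    Tendsto (fun k => (betti G F (Γ k) i : ℝ) / (Γ k).index) atTop
      (𝓝 ((∑ S : Finset V, (red G F (asc t S) i : ℝ)) / 2 ^ Fintype.card V)) := by
  obtain ⟨L, hL⟩ : ∃ L : ℤ, L = ∑ S : Finset V, (red G F (asc t S) i : ℤ) := ⟨_, rfl⟩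
  have hL2 : (∑ S : Finset V, (red G F (asc t S) i : ℝ)) = (L : ℝ) := by
    rw [hL]
    push_cast
    rfl
  rw [hL2, Metric.tendsto_atTop]
  intro ε hε
  obtain ⟨R, hR⟩ := exists_nat_gt ((2 * Fintype.card V * 2 ^ Fintype.card V : ℝ) / ε)
  have hR0 : (0 : ℝ) < R := lt_of_le_of_lt (by positivity) hR
  obtain ⟨k0, hk0⟩ := far_of_chain G hanti (hf 0) hn hbot R
  refine ⟨k0, fun k hk => ?_⟩
  have h1 := growth G h F i R (Γ k) (hf k) ((hanti (Nat.zero_le k)).trans hc) (hk0 k hk)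
  rw [← hL] at h1
  have hidx : (0 : ℝ) < (Γ k).index := by
    have := (hf k).index_ne_zero
    exact_mod_cast Nat.pos_of_ne_zero this
  have h2 : |(R : ℝ) * (2 ^ Fintype.card V * betti G F (Γ k) i - (Γ k).index * L)| ≤
      2 ^ Fintype.card V * (2 * Fintype.card V * 2 ^ Fintype.card V * (Γ k).index) := by
    exact_mod_cast h1
  have hp : (0 : ℝ) < 2 ^ Fintype.card V := by positivity
  rw [Real.dist_eq]
  have h3 : (betti G F (Γ k) i : ℝ) / (Γ k).index - L / 2 ^ Fintype.card V =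
      ((R : ℝ) * (2 ^ Fintype.card V * betti G F (Γ k) i - (Γ k).index * L)) /
        (R * (2 ^ Fintype.card V * (Γ k).index)) := by
    field_simp
  rw [h3, abs_div, abs_of_pos (by positivity : (0 : ℝ) < R * (2 ^ Fintype.card V * (Γ k).index))]
  rw [div_lt_iff₀ (by positivity)]
  refine lt_of_le_of_lt h2 ?_
  rw [div_lt_iff₀ hε] at hR
  calc (2 : ℝ) ^ Fintype.card V * (2 * Fintype.card V * 2 ^ Fintype.card V * (Γ k).index)
      = (2 * Fintype.card V * 2 ^ Fintype.card V) * (2 ^ Fintype.card V * (Γ k).index) := by ring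
    _ < (R * ε) * (2 ^ Fintype.card V * (Γ k).index) :=
        mul_lt_mul_of_pos_right hR (by positivity)
    _ = ε * (R * (2 ^ Fintype.card V * (Γ k).index)) := by ring

/-- the same, relative to the first group -/
theorem growth_chain_rel {t q : V → V} (h : Cls G t q) (F : Type) [Field F] (i : ℕ) {Γ : ℕ → Subgroup (W G)}
    (hanti : Antitone Γ) (hf : ∀ k, (Γ k).FiniteIndex) (hc : Γ 0 ≤ commutator (W G))
    (hn : ∀ k, ∀ g ∈ Γ 0, ∀ x ∈ Γ k, g * x * g⁻¹ ∈ Γ k) (hbot : ⨅ k, Γ k = ⊥) :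
    Tendsto (fun k => (betti G F (Γ k) i : ℝ) / (Γ k).relIndex (Γ 0)) atTop
      (𝓝 ((Γ 0).index * (∑ S : Finset V, (red G F (asc t S) i : ℝ)) / 2 ^ Fintype.card V)) := by
  have h1 := (growth_chain G h F i hanti hf hc hn hbot).const_mul ((Γ 0).index : ℝ)
  rw [mul_div_assoc]
  refine h1.congr fun k => ?_
  have h2 := Subgroup.relIndex_mul_index (hanti (Nat.zero_le k))
  have h3 := (hf 0).index_ne_zero
  have h4 := (hf k).index_ne_zero
  have h5 : (Γ k).relIndex (Γ 0) ≠ 0 := fun e => h4 (by rw [← h2, e, zero_mul])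
  rw [← h2]
  push_cast
  have h6 : ((Γ 0).index : ℝ) ≠ 0 := by exact_mod_cast h3
  have h7 : ((Γ k).relIndex (Γ 0) : ℝ) ≠ 0 := by exact_mod_cast h5
  field_simp

end

end Pool.Agent.H815.HG
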