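import Pool.Agent.H815.HG.Shift

/-!
# The operator of a class and its kernel
-/

set_option autoImplicit false
set_option linter.unusedSectionVars false
set_option linter.unusedVariables false

namespace Pool.Agent.H815.HG

open Finset Pool.Agent.W907.SG Pool.Agent.H815.TW Module

section

variable {V : Type} [Fintype V] [LinearOrder V] {X : Type} {G : SimpleGraph V} {t q : V → V}

/-- the operator of the class `κ` -/
noncomputable def Qk (D : Act G t X) (q : V → V) (F : Type) [Field F] (κ : V) :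
    (Finset V → X → F) →ₗ[F] (Finset V → X → F) :=
  LinearMap.id - ∑ u ∈ univ.filter (fun u => t u = κ), Uu D q F u

theorem Qk_apply (D : Act G t X) (F : Type) [Field F] (κ : V) (c : Finset V → X → F) :
    Qk D q F κ c = c - ∑ u ∈ univ.filter (fun u => t u = κ), Uu D q F u c := by
  unfold Qk
  rw [LinearMap.sub_apply, LinearMap.id_apply, LinearMap.sum_apply]

theorem Qk_memA {D : Act G t X} (h : Cls G t q) {F : Type} [Field F] (κ : V) {c : Finset V → X → F}
    (hc : c ∈ KA D F) : Qk D q F κ c ∈ KA D F := by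
  rw [Qk_apply]
  exact Submodule.sub_mem _ hc (Submodule.sum_mem _ fun u _ => Uu_memA h u hc)

theorem Qk_mem {D : Act G t X} (h : Cls G t q) {F : Type} [Field F] (κ : V) {i : ℕ} {c : Finset V → X → F}
    (hc : c ∈ K D F i) : Qk D q F κ c ∈ K D F i := by
  rw [Qk_apply]
  exact Submodule.sub_mem _ hc (Submodule.sum_mem _ fun u _ => Uu_mem h u hc)

/-- **The chain map.** -/
theorem dS_Qk {D : Act G t X} (h : Cls G t q) {F : Type} [Field F] (S : Finset V) (κ : V) (hS : κ ∉ S)
    {c : Finset V → X → F} (hc : c ∈ KA D F) :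
    dS D F S (Qk D q F κ c) = Qk D q F κ (dS D F (insert κ S) c) := by
  rw [Qk_apply, Qk_apply, map_sub, map_sum]
  have h1 : ∀ u ∈ univ.filter (fun u => t u = κ), dS D F S (Uu D q F u c) =
      Uu D q F u (dS D F (insert κ S) c) + Ju D u c := by
    intro u hu
    obtain ⟨_, hu⟩ := mem_filter.1 hu
    have h2 := dS_Uu h S u (by rw [hu]; exact hS) hc
    rwa [hu] at h2
  rw [sum_congr rfl h1, sum_add_distrib]
  have h3 : dS D F S c - ∑ u ∈ univ.filter (fun u => t u = κ), Ju D u c = dS D F (insert κ S) c := by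
    funext T x
    rw [Pi.sub_apply, Pi.sub_apply, Finset.sum_apply, Finset.sum_apply, dS_apply, dS_apply]
    have h4 : ∑ u ∈ univ.filter (fun u => t u = κ), Ju D u c T x =
        ∑ v ∈ Tᶜ, if t v = κ then (sg v T : ℤ) • c (insert v T) (D.a v x) else 0 := by
      rw [← sum_filter]
      unfold Ju
      rw [sum_filter, sum_filter]
      have h5 : ∀ v, (if t v = κ then (if v ∈ T then (0 : F) else (sg v T : ℤ) • c (insert v T) (D.a v x)) else 0) =
          if v ∈ Tᶜ then (if t v = κ then (sg v T : ℤ) • c (insert v T) (D.a v x) else 0) else 0 := by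
        intro v
        by_cases h6 : v ∈ T <;> by_cases h7 : t v = κ <;> simp [h6, h7]
      rw [sum_congr rfl fun v _ => h5 v, ← sum_filter]
      congr 1
      ext v
      simp
    rw [h4, ← sum_sub_distrib]
    refine sum_congr rfl fun v _ => ?_
    by_cases h5 : t v = κ
    · have h6 : t v ∉ S := h5 ▸ hS
      rw [if_pos h5, if_neg h6, if_pos (by rw [h5]; exact mem_insert_self _ _), sub_zero, smul_sub]
    · rw [if_neg h5, sub_zero]
      have h6 : (t v ∈ insert κ S) ↔ t v ∈ S := by
        rw [mem_insert]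
        exact ⟨fun h4 => h4.resolve_left h5, Or.inr⟩
      by_cases h7 : t v ∈ S
      · rw [if_pos h7, if_pos (h6.2 h7)]
      · rw [if_neg h7, if_neg fun h8 => h7 (h6.1 h8)]
  rw [← h3]
  abel

/-- the translation along a class -/
def tr (D : Act G t X) (q : V → V) (κ : V) : Equiv.Perm X :=
  ⟨fun x => D.a κ (D.a (q κ) x), fun x => D.a (q κ) (D.a κ x), fun x => by
    show D.a (q κ) (D.a κ (D.a κ (D.a (q κ) x))) = x
    rw [D.inv, D.inv], fun x => by
    show D.a κ (D.a (q κ) (D.a (q κ) (D.a κ x))) = x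
    rw [D.inv, D.inv]⟩

theorem tr_apply (D : Act G t X) (κ : V) (x : X) : tr D q κ x = D.a κ (D.a (q κ) x) := rfl

variable {D : Act G t X} {F : Type} [Field F] {κ : V} {c : Finset V → X → F}

theorem ker_eq (hQ : Qk D q F κ c = 0) (T : Finset V) (x : X) :
    c T x = ∑ u ∈ univ.filter (fun u => t u = κ), Uu D q F u c T x := by
  rw [Qk_apply] at hQ
  have h1 := congrFun (congrFun (sub_eq_zero.1 hQ) T) x
  rw [h1, Finset.sum_apply, Finset.sum_apply]

theorem nx_cases (h : Cls G t q) (hκ : t κ = κ) {u : V} (hu : t u = κ) :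
    (u = κ ∧ nx t q u = q κ) ∨ (u ≠ κ ∧ nx t q u = κ) := by
  unfold nx
  by_cases h1 : u = t u
  · left
    have h2 : u = κ := h1.trans hu
    rw [if_pos h1, h2]
    exact ⟨rfl, rfl⟩
  · right
    rw [if_neg h1]
    exact ⟨fun h2 => h1 (by rw [h2, hκ]), hu⟩

/-- the other vertices of the class -/
theorem ker_other (h : Cls G t q) (hκ : t κ = κ) (hc : c ∈ KA D F) (hQ : Qk D q F κ c = 0) {T : Finset V}
    {v : V} (hv : v ∈ T) (htv : t v = κ) (h1 : v ≠ κ) (h2 : v ≠ q κ) (x : X) : c T x = 0 := by
  by_contra hne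
  have hT := (hc T x hne).1
  rw [ker_eq hQ] at hne
  obtain ⟨u, hu, h3⟩ := exists_ne_zero_of_sum_ne_zero hne
  obtain ⟨_, hu⟩ := mem_filter.1 hu
  have h4 := (Uu_supp h u hc h3).2.2.1
  have h5 := notMem_of h hT h4 v (htv.trans hu.symm)
  rw [mem_erase] at h5
  push Not at h5
  rcases nx_cases h hκ hu with ⟨_, h6⟩ | ⟨_, h6⟩
  · exact h5 (by rw [h6]; exact h2) hv
  · exact h5 (by rw [h6]; exact h1) hv

theorem ker_none (h : Cls G t q) (hc : c ∈ KA D F) (hQ : Qk D q F κ c = 0) {T : Finset V}
    (hT : ∀ v ∈ T, t v ≠ κ) (x : X) : c T x = 0 := by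
  rw [ker_eq hQ]
  refine sum_eq_zero fun u hu => ?_
  obtain ⟨_, hu⟩ := mem_filter.1 hu
  refine Uu_neg D F u c x fun h1 => hT _ h1.2 ?_
  rw [t_nx h, hu]

theorem ker_twin (h : Cls G t q) (hκ : t κ = κ) (hc : c ∈ KA D F) (hQ : Qk D q F κ c = 0) {T : Finset V}
    (hT : q κ ∈ T) (x : X) : c T x = Uu D q F κ c T x := by
  rw [ker_eq hQ]
  refine sum_eq_single κ (fun u hu huκ => ?_) fun h1 => absurd (by simp [hκ]) h1
  obtain ⟨_, hu⟩ := mem_filter.1 hu
  rcases nx_cases h hκ hu with ⟨h6, _⟩ | ⟨_, h6⟩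
  · exact absurd h6 huκ
  · refine Uu_neg D F u c x fun h1 => ?_
    rw [h6] at h1
    have h2 : κ ≠ q κ := fun e => h.qne κ (by rw [← e, hκ])
    exact h.not_adj (u := κ) (v := q κ) (by rw [h.tq]) (h1.1 (mem_coe.2 h1.2) (mem_coe.2 hT) h2)

theorem ker_rep (h : Cls G t q) (hκ : t κ = κ) (hc : c ∈ KA D F) (hQ : Qk D q F κ c = 0) {T : Finset V}
    (hT : κ ∈ T) (x : X) : c T (tr D q κ x) = c T x := by
  by_cases hcl : G.IsClique (T : Set V)
  swap
  · have h1 : ∀ y, c T y = 0 := fun y => by
      by_contra h2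
      exact hcl (hc T y h2).1
    rw [h1, h1]
  have hne : q κ ≠ κ := fun e => h.qne κ (by rw [e, hκ])
  have hnq : nx t q (q κ) = κ := by
    rcases nx_cases h hκ (u := q κ) (by rw [h.tq, hκ]) with ⟨h1, _⟩ | ⟨_, h1⟩
    · exact absurd h1 hne
    · exact h1
  have hnκ : nx t q κ = q κ := by
    rcases nx_cases h hκ (u := κ) hκ with ⟨_, h1⟩ | ⟨h1, _⟩
    · exact h1
    · exact absurd rfl h1
  obtain ⟨T', hT'⟩ : ∃ T', T' = T.erase κ := ⟨_, rfl⟩
  have hκT' : κ ∉ T' := hT' ▸ notMem_erase _ _
  have hTe : T = insert κ T' := by rw [hT', insert_erase hT]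
  have hqT' : q κ ∉ T' := by
    intro h1
    have h2 : q κ ∈ T := by rw [hTe]; exact mem_insert_of_mem h1
    exact h.not_adj (u := q κ) (v := κ) (by rw [h.tq]) (hcl (mem_coe.2 h2) (mem_coe.2 hT) hne)
  -- first step
  have h1 : c T x = (es (q κ) κ T' : ℤ) • c (insert (q κ) T') (D.a (q κ) x) := by
    rw [ker_eq hQ, sum_eq_single (q κ)]
    · rw [Uu_pos D F (q κ) c x hcl (by rw [hnq]; exact hT), hnq, ← hT']
    · intro u hu huq
      obtain ⟨_, hu⟩ := mem_filter.1 hu
      by_contra h2
      obtain ⟨_, _, h3, h4, _⟩ := Uu_supp h u hc h2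
      rcases nx_cases h hκ hu with ⟨h5, h6⟩ | ⟨h5, h6⟩
      · rw [h6] at h3
        exact h.not_adj (u := q κ) (v := κ) (by rw [h.tq]) (hcl (mem_coe.2 h3) (mem_coe.2 hT) hne)
      · exact h4 (ker_other h hκ hc hQ (mem_insert_self _ _) hu h5 huq _)
    · intro h2
      exact absurd (by simp [h.tq, hκ]) h2
  have h2 : ∀ y, c (insert (q κ) T') y = (es κ (q κ) T' : ℤ) • c T (D.a κ y) := by
    intro y
    rw [ker_twin h hκ hc hQ (mem_insert_self _ _)]
    have hcl2 : G.IsClique ((insert (q κ) T' : Finset V) : Set V) := by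
      intro a ha b hb hab
      have hκa : ∀ a ∈ T', G.Adj κ a := fun a ha =>
        hcl (mem_coe.2 hT) (by rw [hTe]; simp [ha]) fun e => hκT' (e ▸ ha)
      have hqa : ∀ a ∈ T', G.Adj (q κ) a := fun a ha => by
        have h3 := h.qle κ
        rw [hκ] at h3
        exact h3 a (hκa a ha)
      rw [mem_coe, mem_insert] at ha hb
      rcases ha with rfl | ha <;> rcases hb with rfl | hb
      · exact absurd rfl hab
      · exact hqa b hb
      · exact (hqa a ha).symm
      · exact hcl (by rw [hTe]; simp [ha]) (by rw [hTe]; simp [hb]) hab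
    rw [Uu_pos D F κ c y hcl2 (by rw [hnκ]; exact mem_insert_self _ _), hnκ, erase_insert hqT', ← hTe]
  rw [tr_apply, h1, h2, smul_smul]
  have h3 : es (q κ) κ T' * es κ (q κ) T' = 1 := by
    unfold es
    have h4 := sg_mul_self κ T'
    have h5 := sg_mul_self (q κ) T'
    linear_combination (sg (q κ) T' * sg (q κ) T') * h4 + h5
  rw [h3, one_smul]

/-- the functions invariant under a permutation -/
def Inv (F : Type) [Field F] (π : Equiv.Perm X) : Submodule F (X → F) where
  carrier := {g | ∀ x, g (π x) = g x}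
  add_mem' := fun {a b} ha hb x => by
    show a (π x) + b (π x) = a x + b x
    rw [ha x, hb x]
  zero_mem' := fun _ => rfl
  smul_mem' := fun r a ha x => by
    show r * a (π x) = r * a x
    rw [ha x]

theorem Inv_pow {π : Equiv.Perm X} {g : X → F} (hg : g ∈ Inv F π) (n : ℕ) (x : X) : g ((π ^ n) x) = g x := by
  induction n with
  | zero => rfl
  | succ n ih =>
    rw [pow_succ', Equiv.Perm.mul_apply, hg, ih]

theorem Inv_zpow {π : Equiv.Perm X} {g : X → F} (hg : g ∈ Inv F π) (n : ℤ) (x : X) : g ((π ^ n) x) = g x := by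
  obtain ⟨m, rfl | rfl⟩ := n.eq_nat_or_neg
  · rw [zpow_natCast]; exact Inv_pow hg m x
  · have h1 := Inv_pow hg m ((π ^ (-(m : ℤ))) x)
    rw [← h1, ← zpow_natCast, ← Equiv.Perm.mul_apply, ← zpow_add, add_neg_cancel, zpow_zero, Equiv.Perm.one_apply]

theorem Inv_bound [Fintype X] (π : Equiv.Perm X) (R : ℕ) (hR : ∀ x, ∀ j, 0 < j → j < R → (π ^ j) x ≠ x) :
    R * finrank F (Inv F π) ≤ Fintype.card X := by
  classical
  obtain ⟨s, hs⟩ : ∃ s, s = Equiv.Perm.SameCycle.setoid π := ⟨_, rfl⟩
  have h1 : finrank F (Inv F π) ≤ Fintype.card (Quotient s) := by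
    let f : Inv F π →ₗ[F] (Quotient s → F) :=
      { toFun := fun g y => g.1 y.out
        map_add' := fun _ _ => rfl
        map_smul' := fun _ _ => rfl }
    have hf : Function.Injective f := by
      rw [injective_iff_map_eq_zero]
      rintro ⟨g, hg⟩ h2
      refine Subtype.ext (funext fun x => ?_)
      show g x = 0
      have h3 : s ((Quotient.mk s x).out) x := Quotient.mk_out x
      rw [hs] at h3
      obtain ⟨n, hn⟩ : ∃ n : ℤ, (π ^ n) ((Quotient.mk s x).out) = x := by
        subst hs
        exact h3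
      have h4 : g ((Quotient.mk s x).out) = 0 := congrFun h2 (Quotient.mk s x)
      rw [← hn, Inv_zpow hg, h4]
    have h2 := LinearMap.finrank_le_finrank_of_injective hf
    rwa [finrank_fintype_fun_eq_card] at h2
  have h2 : R * Fintype.card (Quotient s) ≤ Fintype.card X := by
    have h3 : Fintype.card (Fin R × Quotient s) ≤ Fintype.card X := by
      refine Fintype.card_le_of_injective (fun p => (π ^ (p.1 : ℕ)) p.2.out) ?_
      rintro ⟨j, y⟩ ⟨j', y'⟩ h4
      simp only at h4
      have h5 : y = y' := by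
        have h6 : s y.out y'.out := by
          subst hs
          refine ⟨(j : ℤ) - j', ?_⟩
          have : π ^ ((j : ℤ) - j') = (π ^ (j' : ℕ))⁻¹ * π ^ (j : ℕ) := by
            rw [← zpow_natCast, ← zpow_natCast, ← zpow_neg, ← zpow_add]
            congr 1
            ring
          rw [this, Equiv.Perm.mul_apply, h4]
          exact Equiv.symm_apply_apply _ _
        rw [← Quotient.out_eq y, ← Quotient.out_eq y']
        exact Quotient.sound h6
      subst h5
      have h6 : j = j' := by
        by_contra h7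
        rcases lt_or_gt_of_ne (fun e => h7 (Fin.ext e) : (j : ℕ) ≠ j') with h8 | h8
        · refine hR y.out ((j' : ℕ) - j) (by omega) (by omega) ?_
          have h9 : π ^ (j' : ℕ) = π ^ (j : ℕ) * π ^ ((j' : ℕ) - j) := by
            rw [← pow_add]
            congr 1
            omega
          rw [h9, Equiv.Perm.mul_apply] at h4
          exact ((π ^ (j : ℕ)).injective h4).symm
        · refine hR y.out ((j : ℕ) - j') (by omega) (by omega) ?_
          have h9 : π ^ (j : ℕ) = π ^ (j' : ℕ) * π ^ ((j : ℕ) - j') := by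
            rw [← pow_add]
            congr 1
            omega
          rw [h9, Equiv.Perm.mul_apply] at h4
          exact (π ^ (j' : ℕ)).injective h4
      rw [h6]
    rwa [Fintype.card_prod, Fintype.card_fin] at h3
  exact (Nat.mul_le_mul_left R h1).trans h2

/-- **The kernel is small.** -/
theorem ker_bound [Fintype X] (h : Cls G t q) (hκ : t κ = κ) (R : ℕ)
    (hR : ∀ x, ∀ j, 0 < j → j < R → ((tr D q κ) ^ j) x ≠ x) :
    R * finrank F ↥(KA D F ⊓ LinearMap.ker (Qk D q F κ)) ≤ 2 ^ Fintype.card V * Fintype.card X := by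
  classical
  have h1 : finrank F ↥(KA D F ⊓ LinearMap.ker (Qk D q F κ)) ≤ finrank F (Finset V → Inv F (tr D q κ)) := by
    let f : ↥(KA D F ⊓ LinearMap.ker (Qk D q F κ)) →ₗ[F] (Finset V → Inv F (tr D q κ)) :=
      { toFun := fun c T => ⟨if κ ∈ T then c.1 T else 0, by
          split_ifs with h2
          · exact fun x => ker_rep h hκ c.2.1 (LinearMap.mem_ker.1 c.2.2) h2 x
          · exact Submodule.zero_mem _⟩
        map_add' := fun c d => by
          funext T
          refine Subtype.ext ?_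
          show (if κ ∈ T then c.1 T + d.1 T else 0) = (if κ ∈ T then c.1 T else 0) + (if κ ∈ T then d.1 T else 0)
          split_ifs
          · rfl
          · rw [add_zero]
        map_smul' := fun r c => by
          funext T
          refine Subtype.ext ?_
          show (if κ ∈ T then r • c.1 T else 0) = r • (if κ ∈ T then c.1 T else 0)
          split_ifs
          · rfl
          · rw [smul_zero] }
    have hf : Function.Injective f := by
      rw [injective_iff_map_eq_zero]
      rintro ⟨c, hc⟩ h2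
      have hc1 := hc.1
      have hc2 := LinearMap.mem_ker.1 hc.2
      refine Subtype.ext (funext fun T => funext fun x => ?_)
      show c T x = 0
      have h3 : ∀ T : Finset V, κ ∈ T → ∀ x, c T x = 0 := by
        intro T hT x
        have h4 := congrArg Subtype.val (congrFun h2 T)
        have h5 : (if κ ∈ T then c T else 0) = 0 := h4
        rw [if_pos hT] at h5
        exact congrFun h5 x
      by_contra hne
      have h4 : ∃ v ∈ T, t v = κ := by
        by_contra h5
        push Not at h5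
        exact hne (ker_none h hc1 hc2 h5 x)
      obtain ⟨v, hv, htv⟩ := h4
      by_cases h5 : v = κ
      · exact hne (h3 T (h5 ▸ hv) x)
      · by_cases h6 : v = q κ
        · rw [ker_twin h hκ hc1 hc2 (h6 ▸ hv)] at hne
          have h7 := (Uu_supp h κ hc1 hne).2.2.2.1
          exact h7 (h3 _ (mem_insert_self _ _) _)
        · exact hne (ker_other h hκ hc1 hc2 hv htv h5 h6 x)
    exact LinearMap.finrank_le_finrank_of_injective hf
  have h2 : finrank F (Finset V → Inv F (tr D q κ)) = 2 ^ Fintype.card V * finrank F (Inv F (tr D q κ)) := by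
    rw [finrank_pi_fintype, sum_const, card_univ, Fintype.card_finset, smul_eq_mul]
  rw [h2] at h1
  calc R * finrank F ↥(KA D F ⊓ LinearMap.ker (Qk D q F κ))
      ≤ R * (2 ^ Fintype.card V * finrank F (Inv F (tr D q κ))) := Nat.mul_le_mul_left _ h1
    _ = 2 ^ Fintype.card V * (R * finrank F (Inv F (tr D q κ))) := by ring
    _ ≤ _ := Nat.mul_le_mul_left _ (Inv_bound _ R hR)

end

end Pool.Agent.H815.HG
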