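import Pool.Agent.H815.HG.Cx

/-!
# The shift operators
-/

set_option autoImplicit false
set_option linter.unusedSectionVars false

namespace Pool.Agent.H815.HG

open Finset Pool.Agent.W907.SG Pool.Agent.H815.TW

section

variable {V : Type} [Fintype V] [LinearOrder V] {X : Type} {G : SimpleGraph V} {t q : V → V}

/-- the sign of the exchange of `u` and `v` -/
def es (u v : V) (T : Finset V) : ℤ := sg u T * sg v T

theorem sg_ex (w u : V) (T : Finset V) (hwu : w ≠ u) (hw : w ∉ T) (hu : u ∉ T) :
    sg w (insert u T) = - (sg u (insert w T) * sg w T * sg u T) := by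
  have h1 := sg_swap w u T hwu hw hu
  have h2 := sg_mul_self u T
  calc sg w (insert u T) = (sg w (insert u T) * sg u T) * sg u T := by rw [mul_assoc, h2, mul_one]
    _ = _ := by rw [h1]; ring

/-- the sign rule for the exchange -/
theorem es_rule (w u v : V) (T : Finset V) (hwu : w ≠ u) (hwv : w ≠ v) (hw : w ∉ T) (hu : u ∉ T) (hv : v ∉ T) :
    sg w (insert v T) * es u v (insert w T) = es u v T * sg w (insert u T) := by
  unfold es
  rw [sg_ex w v T hwv hw hv, sg_ex w u T hwu hw hu]
  have h1 := sg_mul_self v (insert w T)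
  have h2 := sg_mul_self u T
  have h3 := sg_mul_self v T
  linear_combination (-(sg w T * sg v T * sg u (insert w T))) * h1 + (sg u (insert w T) * sg w T * sg v T) * h2

open Classical in
/-- the shift along the generator `u` -/
noncomputable def Uu (D : Act G t X) (q : V → V) (F : Type) [Field F] (u : V) :
    (Finset V → X → F) →ₗ[F] (Finset V → X → F) where
  toFun c T x := if G.IsClique (T : Set V) ∧ nx t q u ∈ T then
    (es u (nx t q u) (T.erase (nx t q u)) : ℤ) • c (insert u (T.erase (nx t q u))) (D.a u x) else 0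
  map_add' c d := by
    funext T x
    simp only [Pi.add_apply]
    split_ifs
    · rw [smul_add]
    · rw [add_zero]
  map_smul' r c := by
    funext T x
    simp only [Pi.smul_apply, smul_eq_mul, RingHom.id_apply]
    split_ifs
    · rw [mul_smul_comm]
    · rw [mul_zero]

theorem Uu_pos (D : Act G t X) (F : Type) [Field F] (u : V) (c : Finset V → X → F) {T : Finset V} (x : X)
    (h : G.IsClique (T : Set V)) (h' : nx t q u ∈ T) : Uu D q F u c T x =
    (es u (nx t q u) (T.erase (nx t q u)) : ℤ) • c (insert u (T.erase (nx t q u))) (D.a u x) :=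
  if_pos ⟨h, h'⟩

theorem Uu_neg (D : Act G t X) (F : Type) [Field F] (u : V) (c : Finset V → X → F) {T : Finset V} (x : X)
    (h : ¬ (G.IsClique (T : Set V) ∧ nx t q u ∈ T)) : Uu D q F u c T x = 0 := if_neg h

/-- in a clique with `nx u` there is no other vertex of the class -/
theorem notMem_of (h : Cls G t q) {u : V} {T : Finset V} (hT : G.IsClique (T : Set V)) (hn : nx t q u ∈ T) :
    ∀ w, t w = t u → w ∉ T.erase (nx t q u) := by
  intro w hw hwT
  obtain ⟨h1, h2⟩ := mem_erase.1 hwT
  exact h.not_adj (hw.trans (t_nx h u).symm) (hT (mem_coe.2 h2) (mem_coe.2 hn) h1)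

theorem Uu_supp {D : Act G t X} (h : Cls G t q) {F : Type} [Field F] (u : V) {c : Finset V → X → F}
    (hc : c ∈ KA D F) {T : Finset V} {x : X} (hne : Uu D q F u c T x ≠ 0) :
    G.IsClique (T : Set V) ∧ (∀ v ∈ T, D.up v x = true) ∧ nx t q u ∈ T ∧
      c (insert u (T.erase (nx t q u))) (D.a u x) ≠ 0 ∧
      (insert u (T.erase (nx t q u))).card = T.card := by
  by_cases h1 : G.IsClique (T : Set V) ∧ nx t q u ∈ T
  · rw [Uu_pos D F u c x h1.1 h1.2] at hne
    have h2 : c (insert u (T.erase (nx t q u))) (D.a u x) ≠ 0 := fun h3 => hne (by rw [h3, smul_zero])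
    obtain ⟨h3, h4⟩ := hc _ _ h2
    have hu : u ∉ T.erase (nx t q u) := notMem_of h h1.1 h1.2 u rfl
    refine ⟨h1.1, fun v hv => ?_, h1.2, h2, ?_⟩
    · by_cases hvn : v = nx t q u
      · have h5 := up_nx h D (h4 u (mem_insert_self _ _))
        rw [D.inv] at h5
        rw [hvn]; exact h5
      · have hv' : v ∈ T.erase (nx t q u) := mem_erase.2 ⟨hvn, hv⟩
        have h5 := h4 v (mem_insert_of_mem hv')
        rwa [D.up_par h] at h5
        exact h3 (by simp [hvn, hv]) (by simp) fun e => hu (e ▸ hv')
    · rw [card_insert_of_notMem hu, card_erase_of_mem h1.2]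
      have := card_pos.2 ⟨_, h1.2⟩
      omega
  · exact absurd (Uu_neg D F u c x h1) hne

theorem Uu_memA {D : Act G t X} (h : Cls G t q) {F : Type} [Field F] (u : V) {c : Finset V → X → F}
    (hc : c ∈ KA D F) : Uu D q F u c ∈ KA D F := by
  intro T x hne
  obtain ⟨h1, h2, _⟩ := Uu_supp h u hc hne
  exact ⟨h1, h2⟩

theorem Uu_mem {D : Act G t X} (h : Cls G t q) {F : Type} [Field F] (u : V) {i : ℕ} {c : Finset V → X → F}
    (hc : c ∈ K D F i) : Uu D q F u c ∈ K D F i := by
  intro T x hne
  obtain ⟨h1, h2, h3, h4, h5⟩ := Uu_supp h u (K_le D F i hc) hne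
  exact ⟨⟨h1, h2⟩, h5 ▸ (hc _ _ h4).2⟩

/-- the term of the generator `u` in the boundary -/
def Ju (D : Act G t X) {F : Type} [Field F] (u : V) (c : Finset V → X → F) : Finset V → X → F :=
  fun T x => if u ∈ T then 0 else (sg u T : ℤ) • c (insert u T) (D.a u x)

/-- **The commutation rule.** -/
theorem dS_Uu {D : Act G t X} (h : Cls G t q) {F : Type} [Field F] (S : Finset V) (u : V) (hS : t u ∉ S)
    {c : Finset V → X → F} (hc : c ∈ KA D F) :
    dS D F S (Uu D q F u c) = Uu D q F u (dS D F (insert (t u) S) c) + Ju D u c := by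
  classical
  have hcl : ∀ (T : Finset V) (x : X), ¬ G.IsClique (T : Set V) → c T x = 0 := fun T x hT => by
    by_contra h1
    exact hT (hc T x h1).1
  have hns : ∀ w, ¬ G.Adj u w ∨ t w ≠ t u := fun w => by
    by_cases h1 : t w = t u
    · exact Or.inl (h.not_adj h1.symm)
    · exact Or.inr h1
  obtain ⟨n, hn⟩ : ∃ n, n = nx t q u := ⟨_, rfl⟩
  have hnu : n ≠ u := hn ▸ nx_ne h u
  have hnle : Le G u n := hn ▸ nx_le h u
  have htn : t n = t u := hn ▸ t_nx h u
  have hadj : ¬ G.Adj u n := h.not_adj htn.symm
  funext T x
  rw [Pi.add_apply, Pi.add_apply, dS_apply]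
  unfold Ju
  by_cases h1 : G.IsClique (T : Set V) ∧ n ∈ T
  · obtain ⟨hT, hnT⟩ := h1
    obtain ⟨T', hT'⟩ : ∃ T', T' = T.erase n := ⟨_, rfl⟩
    have hnT' : n ∉ T' := by rw [hT']; exact notMem_erase _ _
    have hTe : T = insert n T' := by rw [hT', insert_erase hnT]
    have huT' : u ∉ T' := by
      rw [hT', hn]
      exact notMem_of h hT (hn ▸ hnT) u rfl
    have huT : u ∉ T := by
      rw [hTe, mem_insert]
      rintro (h2 | h2)
      · exact hnu h2.symm
      · exact huT' h2
    rw [if_neg huT, hcl (insert u T) _ (fun h2 => hadj (h2 (by simp) (by simp [hnT]) (Ne.symm hnu))), smul_zero,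
      add_zero, Uu_pos D F u _ x hT (hn ▸ hnT), ← hn, ← hT', dS_apply, smul_sum]
    -- the terms `w` outside `insert u T`
    have hL : ∑ v ∈ Tᶜ, (sg v T : ℤ) • (Uu D q F u c (insert v T) x -
        if t v ∈ S then Uu D q F u c (insert v T) (D.a v x) else 0) =
        ∑ v ∈ (insert u T)ᶜ, (sg v T : ℤ) • (Uu D q F u c (insert v T) x -
        if t v ∈ S then Uu D q F u c (insert v T) (D.a v x) else 0) := by
      refine (sum_subset (compl_subset_compl.2 (subset_insert u T)) fun v hv hv' => ?_).symm
      rw [mem_compl] at hv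
      rw [mem_compl, not_not, mem_insert] at hv'
      have hvu : v = u := hv'.resolve_right hv
      have h2 : ∀ y, Uu D q F u c (insert v T) y = 0 := by
        intro y
        refine Uu_neg D F u c y fun h3 => ?_
        rw [hvu] at h3
        exact hadj (h3.1 (by simp) (by simp [hnT]) (Ne.symm hnu))
      rw [h2, h2]
      simp
    have hR : ∑ v ∈ (insert u T')ᶜ, (es u n T' : ℤ) • ((sg v (insert u T') : ℤ) • (c (insert v (insert u T')) (D.a u x) -
        if t v ∈ insert (t u) S then c (insert v (insert u T')) (D.a v (D.a u x)) else 0)) =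
        ∑ v ∈ (insert u T)ᶜ, (es u n T' : ℤ) • ((sg v (insert u T') : ℤ) • (c (insert v (insert u T')) (D.a u x) -
        if t v ∈ insert (t u) S then c (insert v (insert u T')) (D.a v (D.a u x)) else 0)) := by
      refine (sum_subset (compl_subset_compl.2 ?_) fun v hv hv' => ?_).symm
      · rw [hTe]
        exact insert_subset_insert _ (subset_insert _ _)
      · rw [mem_compl] at hv
        rw [mem_compl, not_not, hTe, mem_insert, mem_insert] at hv'
        have hvn : v = n := by
          rw [mem_insert] at hv
          tauto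
        have h2 : ∀ y, c (insert v (insert u T')) y = 0 := by
          intro y
          refine hcl _ _ fun h3 => ?_
          rw [hvn] at h3
          exact hadj (h3 (by simp) (by simp) (Ne.symm hnu))
        rw [h2, h2]
        simp
    rw [hL, hR]
    refine sum_congr rfl fun w hw => ?_
    rw [mem_compl, mem_insert] at hw
    push Not at hw
    obtain ⟨hwu, hwT⟩ := hw
    have hwn : w ≠ n := fun e => hwT (e ▸ hnT)
    have hwT' : w ∉ T' := fun e => hwT (by rw [hTe]; exact mem_insert_of_mem e)
    have herase : (insert w T).erase n = insert w T' := by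
      rw [hT', erase_insert_of_ne hwn]
    have hins : insert u (insert w T') = insert w (insert u T') := Finset.insert_comm _ _ _
    -- the value of the shift
    have hU : ∀ y, Uu D q F u c (insert w T) y = (es u n (insert w T') : ℤ) • c (insert w (insert u T')) (D.a u y) := by
      intro y
      by_cases h2 : G.IsClique ((insert w T : Finset V) : Set V)
      · rw [Uu_pos D F u c y h2 (hn ▸ mem_insert_of_mem hnT), ← hn, herase, hins]
      · rw [Uu_neg D F u c y fun h3 => h2 h3.1]
        rw [hcl, smul_zero]
        intro h3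
        apply h2
        intro a ha b hb hab
        have hwa : ∀ a ∈ T, G.Adj w a := by
          intro a ha
          rw [hTe, mem_insert] at ha
          rcases ha with rfl | ha
          · exact (hnle w (h3 (by simp) (by simp) (Ne.symm hwu))).symm
          · exact h3 (by simp) (by simp [ha]) fun e => hwT' (e ▸ ha)
        rw [mem_coe, mem_insert] at ha hb
        rcases ha with rfl | ha <;> rcases hb with rfl | hb
        · exact absurd rfl hab
        · exact hwa b hb
        · exact (hwa a ha).symm
        · exact hT (mem_coe.2 ha) (mem_coe.2 hb) hab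
    rw [hU, hU]
    have hrule := es_rule w u n T' hwu hwn hwT' huT' hnT'
    rw [← hTe] at hrule
    have hz : ∀ r : F, (sg w T : ℤ) • ((es u n (insert w T') : ℤ) • r) = (es u n T' : ℤ) • ((sg w (insert u T') : ℤ) • r) := by
      intro r
      rw [smul_smul, smul_smul, hrule]
    by_cases h2 : G.IsClique ((insert w (insert u T') : Finset V) : Set V)
    · have hadjw : G.Adj u w := h2 (by simp) (by simp) (Ne.symm hwu)
      have htw : t w ≠ t u := fun e => h.not_adj e.symm hadjw
      rw [D.comm u w hadjw]
      have h3 : (t w ∈ insert (t u) S) ↔ t w ∈ S := by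
        rw [mem_insert]
        exact ⟨fun h4 => h4.resolve_left htw, Or.inr⟩
      by_cases h4 : t w ∈ S
      · rw [if_pos h4, if_pos (h3.2 h4), ← smul_sub, hz]
      · rw [if_neg h4, if_neg (fun h5 => h4 (h3.1 h5)), sub_zero, sub_zero, hz]
    · rw [hcl _ _ h2, hcl _ _ h2, hcl _ _ h2]
      simp
  · -- `n ∉ T` or `T` not a clique
    rw [Uu_neg D F u _ x (hn ▸ h1), zero_add]
    by_cases hT : G.IsClique (T : Set V)
    · have hnT : n ∉ T := fun h2 => h1 ⟨hT, h2⟩
      have hL : ∀ v ∈ Tᶜ, v ≠ n → (sg v T : ℤ) • (Uu D q F u c (insert v T) x -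
          if t v ∈ S then Uu D q F u c (insert v T) (D.a v x) else 0) = 0 := by
        intro v hv hvn
        have h2 : ∀ y, Uu D q F u c (insert v T) y = 0 := by
          intro y
          refine Uu_neg D F u c y fun h3 => ?_
          rw [← hn, mem_insert] at h3
          rcases h3.2 with h4 | h4
          · exact hvn h4.symm
          · exact hnT h4
        rw [h2, h2]
        simp
      rw [sum_eq_single n hL (fun h2 => absurd (mem_compl.2 hnT) h2), if_neg (by rw [htn]; exact hS), sub_zero]
      by_cases huT : u ∈ T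
      · rw [if_pos huT, Uu_neg D F u c x, smul_zero]
        intro h3
        exact hadj (h3.1 (by simp [huT]) (by simp) (Ne.symm hnu))
      · rw [if_neg huT]
        by_cases h2 : G.IsClique ((insert n T : Finset V) : Set V)
        · rw [Uu_pos D F u c x h2 (hn ▸ mem_insert_self _ _), ← hn, erase_insert hnT, smul_smul]
          congr 1
          unfold es
          have := sg_mul_self n T
          calc sg n T * (sg u T * sg n T) = sg u T * (sg n T * sg n T) := by ring
            _ = sg u T := by rw [this, mul_one]
        · rw [Uu_neg D F u c x fun h3 => h2 h3.1, smul_zero, hcl, smul_zero]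
          intro h3
          apply h2
          intro a ha b hb hab
          have hna : ∀ a ∈ T, G.Adj n a := by
            intro a ha
            exact hnle a (h3 (by simp) (by simp [ha]) fun e => huT (e ▸ ha))
          rw [mem_coe, mem_insert] at ha hb
          rcases ha with rfl | ha <;> rcases hb with rfl | hb
          · exact absurd rfl hab
          · exact hna b hb
          · exact (hna a ha).symm
          · exact hT (mem_coe.2 ha) (mem_coe.2 hb) hab
    · have h2 : ∀ v, ¬ G.IsClique ((insert v T : Finset V) : Set V) := fun v h3 => hT (h3.subset (by simp))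
      rw [sum_eq_zero fun v _ => ?_]
      · rw [hcl _ _ (h2 u), smul_zero]
        split_ifs <;> rfl
      · have h3 : ∀ y, Uu D q F u c (insert v T) y = 0 := fun y => Uu_neg D F u c y fun h4 => h2 v h4.1
        rw [h3, h3]
        simp

end

end Pool.Agent.H815.HG
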