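import Pool.Agent.H815.HG.Ker

/-!
# Comparison of the ranks of the boundary operators
-/

set_option autoImplicit false
set_option linter.unusedSectionVars false
set_option linter.unusedVariables false

namespace Pool.Agent.H815.HG

open Finset Pool.Agent.W907.SG Pool.Agent.H815.TW Module

section

variable {F E : Type} [Field F] [AddCommGroup E] [Module F E] [FiniteDimensional F E]

theorem finrank_le_map_add (K N : Submodule F E) (Q : E →ₗ[F] E) (h : K ⊓ LinearMap.ker Q ≤ N) :
    finrank F K ≤ finrank F (K.map Q) + finrank F N := by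
  have h1 := LinearMap.finrank_range_add_finrank_ker (Q.domRestrict K)
  rw [LinearMap.range_domRestrict] at h1
  have h2 : finrank F (LinearMap.ker (Q.domRestrict K)) ≤ finrank F N := by
    refine LinearMap.finrank_le_finrank_of_injective
      (f := (K.subtype.comp (LinearMap.ker (Q.domRestrict K)).subtype).codRestrict N ?_) ?_
    · rintro ⟨⟨x, hx⟩, hk⟩
      exact h ⟨hx, LinearMap.mem_ker.2 (LinearMap.mem_ker.1 hk)⟩
    · intro a b hab
      have := congrArg Subtype.val hab
      exact Subtype.ext (Subtype.ext this)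
  omega

theorem finrank_map_le_add (K L : Submodule F E) (d : E →ₗ[F] E) (h : L ≤ K) :
    finrank F (K.map d) ≤ finrank F (L.map d) + (finrank F K - finrank F L) := by
  obtain ⟨M, hM⟩ := Submodule.exists_isCompl (L.submoduleOf K)
  obtain ⟨M', hM'⟩ : ∃ M', M' = M.map K.subtype := ⟨_, rfl⟩
  have h1 : K = L ⊔ M' := by
    apply le_antisymm
    · intro x hx
      have h2 : (⟨x, hx⟩ : K) ∈ L.submoduleOf K ⊔ M := by
        rw [hM.sup_eq_top]; trivial
      obtain ⟨y, hy, z, hz, hyz⟩ := Submodule.mem_sup.1 h2
      rw [Submodule.mem_sup]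
      refine ⟨y.1, hy, z.1, ?_, congrArg Subtype.val hyz⟩
      rw [hM']
      exact ⟨z, hz, rfl⟩
    · refine sup_le h ?_
      rw [hM']
      rintro _ ⟨z, _, rfl⟩
      exact z.2
  have h2 : finrank F M' ≤ finrank F K - finrank F L := by
    have h3 := Submodule.finrank_add_eq_of_isCompl hM
    have h4 : finrank F (L.submoduleOf K) = finrank F L := (Submodule.submoduleOfEquivOfLe h).finrank_eq
    have h5 : finrank F M' ≤ finrank F M := by rw [hM']; exact Submodule.finrank_map_le _ _
    omega
  calc finrank F (K.map d) = finrank F (((L ⊔ M').map d : Submodule F E)) := by rw [← h1]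
    _ = finrank F (L.map d ⊔ M'.map d : Submodule F E) := by rw [Submodule.map_sup]
    _ ≤ finrank F (L.map d) + finrank F (M'.map d) := Submodule.finrank_add_le_finrank_add_finrank _ _
    _ ≤ finrank F (L.map d) + finrank F M' := Nat.add_le_add_left (Submodule.finrank_map_le _ _) _
    _ ≤ _ := Nat.add_le_add_left h2 _

end

section

variable {V : Type} [Fintype V] [LinearOrder V] {X : Type} [Fintype X] {G : SimpleGraph V} {t q : V → V}

/-- the rank of the boundary operator in degree `i` -/
noncomputable def rk (D : Act G t X) (F : Type) [Field F] (S : Finset V) (i : ℕ) : ℕ :=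
  finrank F ((K D F i).map (dS D F S))

/-- the deviation -/
noncomputable def dev (D : Act G t X) (q : V → V) (F : Type) [Field F] (κ : V) : ℕ :=
  finrank F ↥(KA D F ⊓ LinearMap.ker (Qk D q F κ))

theorem rk_step {D : Act G t X} (h : Cls G t q) (F : Type) [Field F] (S : Finset V) (κ : V) (hS : κ ∉ S) (i : ℕ) :
    rk D F S i ≤ rk D F (insert κ S) i + dev D q F κ ∧ rk D F (insert κ S) i ≤ rk D F S i + dev D q F κ := by
  have hcomm : ((K D F i).map (Qk D q F κ)).map (dS D F S) =
      ((K D F i).map (dS D F (insert κ S))).map (Qk D q F κ) := by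
    rw [← Submodule.map_comp, ← Submodule.map_comp]
    apply le_antisymm
    · rintro _ ⟨c, hc, rfl⟩
      refine ⟨c, hc, ?_⟩
      exact (dS_Qk h S κ hS (K_le D F i hc)).symm
    · rintro _ ⟨c, hc, rfl⟩
      refine ⟨c, hc, ?_⟩
      exact dS_Qk h S κ hS (K_le D F i hc)
  have hQK : (K D F i).map (Qk D q F κ) ≤ K D F i := by
    rintro _ ⟨c, hc, rfl⟩
    exact Qk_mem h κ hc
  constructor
  · have h1 := finrank_map_le_add (K D F i) _ (dS D F S) hQK
    have h2 := finrank_le_map_add (K D F i) (KA D F ⊓ LinearMap.ker (Qk D q F κ)) (Qk D q F κ)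
      (inf_le_inf_right _ (K_le D F i))
    have h3 : finrank F (((K D F i).map (Qk D q F κ)).map (dS D F S)) ≤ rk D F (insert κ S) i := by
      rw [hcomm]
      exact Submodule.finrank_map_le _ _
    unfold rk dev at *
    omega
  · have h4 : (K D F i).map (dS D F (insert κ S)) ≤ KA D F := by
      rintro _ ⟨c, hc, rfl⟩
      exact dS_memA h _ (K_le D F i hc)
    have h5 := finrank_le_map_add ((K D F i).map (dS D F (insert κ S))) (KA D F ⊓ LinearMap.ker (Qk D q F κ))
      (Qk D q F κ) (inf_le_inf_right _ h4)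
    rw [← hcomm] at h5
    have h6 : finrank F (((K D F i).map (Qk D q F κ)).map (dS D F S)) ≤ rk D F S i :=
      Submodule.finrank_mono (Submodule.map_mono hQK)
    unfold rk dev at *
    omega

theorem rk_skip {D : Act G t X} (h : Cls G t q) (F : Type) [Field F] (S : Finset V) (κ : V) (hκ : t κ ≠ κ) (i : ℕ) :
    rk D F (insert κ S) i = rk D F S i := by
  have h1 : dS D F (insert κ S) = dS D F S := by
    refine LinearMap.ext fun c => funext fun T => funext fun x => ?_
    rw [dS_apply, dS_apply]
    refine sum_congr rfl fun v _ => ?_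
    have h2 : t v ≠ κ := fun e => hκ (by rw [← e, h.idem])
    have h3 : (t v ∈ insert κ S) ↔ t v ∈ S := by
      rw [mem_insert]
      exact ⟨fun h4 => h4.resolve_left h2, Or.inr⟩
    by_cases h4 : t v ∈ S
    · rw [if_pos h4, if_pos (h3.2 h4)]
    · rw [if_neg h4, if_neg fun h5 => h4 (h3.1 h5)]
  unfold rk
  rw [h1]

theorem rk_all {D : Act G t X} (h : Cls G t q) (F : Type) [Field F] {R : ℕ}
    (hR : ∀ κ, t κ = κ → ∀ x, ∀ j, 0 < j → j < R → ((tr D q κ) ^ j) x ≠ x) (i : ℕ) (S : Finset V) :
    R * rk D F ∅ i ≤ R * rk D F S i + S.card * (2 ^ Fintype.card V * Fintype.card X) ∧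
      R * rk D F S i ≤ R * rk D F ∅ i + S.card * (2 ^ Fintype.card V * Fintype.card X) := by
  induction S using Finset.induction_on with
  | empty => simp
  | insert κ S hS ih =>
    rw [card_insert_of_notMem hS, add_mul, one_mul]
    by_cases hκ : t κ = κ
    · obtain ⟨h1, h2⟩ := rk_step (D := D) h F S κ hS i

      have h3' : R * dev D q F κ ≤ 2 ^ Fintype.card V * Fintype.card X := ker_bound (F := F) h hκ R (hR κ hκ)
      have h4 := Nat.mul_le_mul_left R h1
      have h5 := Nat.mul_le_mul_left R h2
      rw [mul_add] at h4 h5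
      obtain ⟨h6, h7⟩ := ih
      constructor <;> omega
    · rw [rk_skip (D := D) h F S κ hκ]
      obtain ⟨h6, h7⟩ := ih
      constructor <;> omega

end

end Pool.Agent.H815.HG
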