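import Pool.Agent.H815.HG.Grow

/-!
# The field with two elements
-/

set_option autoImplicit false
set_option linter.unusedSectionVars false
set_option linter.unusedVariables false

namespace Pool.Agent.H815.HG

open Finset Pool.Agent.W907.SG Pool.Agent.H815.TW Module Pool.Agent.R703.MO

section

variable {V : Type} [Fintype V] [LinearOrder V] {G : SimpleGraph V}

theorem sg_two (v : V) (T : Finset V) (z : ZMod 2) : sg v T • z = z := by
  rcases sg_eq_or v T with h | h
  · rw [h, one_smul]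
  · rw [h, neg_smul, one_smul]
    revert z
    decide

theorem beta_zero_of_exact {F : Type} [Field F] (A : Set V) (i : ℕ)
    (h : ∀ z ∈ ZZ G (neg F V) A ∅ i, ∃ w ∈ KK G (neg F V) A ∅ (i + 1), bd F w = z) :
    beta G (neg F V) A ∅ i = 0 := by
  have h1 : ZZ G (neg F V) A ∅ i ≤ BB G (neg F V) A ∅ i := by
    intro z hz
    obtain ⟨w, hw, e⟩ := h z hz
    exact ⟨w, hw, e⟩
  have h2 := Submodule.finrank_mono h1
  unfold beta
  omega

/-- exactness for a copy of the graph -/
theorem beta_two_of_ex {N : ℕ} (e : V ≃ Fin N) (A : Set V) {A' : Finset (Fin N)} (hA : ∀ v, e v ∈ A' ↔ v ∈ A)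
    {i : ℕ} (h : Ex (TW.tr G e) A' i) : beta G (neg (ZMod 2) V) A ∅ i = 0 := by
  classical
  refine beta_zero_of_exact A i fun z hz => ?_
  have hz1 := mem_KKn.1 hz.1
  have hz2 : bd (ZMod 2) z = 0 := LinearMap.mem_ker.1 hz.2
  have hmap : ∀ T : Finset V, (T.map e.toEmbedding).map e.symm.toEmbedding = T := by
    intro T
    ext v
    simp
  have hmap' : ∀ σ : Finset (Fin N), (σ.map e.symm.toEmbedding).map e.toEmbedding = σ := by
    intro T
    ext v
    simp
  obtain ⟨w, hw, hwz⟩ := h (fun σ => z (σ.map e.symm.toEmbedding)) (fun σ hσ => by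
    obtain ⟨h1, h2, h3⟩ := hz1 _ hσ
    refine ⟨?_, ?_, ?_⟩
    · intro a ha b hb hab
      exact h1 (mem_coe.2 (mem_map_of_mem e.symm.toEmbedding ha)) (mem_coe.2 (mem_map_of_mem e.symm.toEmbedding hb))
        fun h4 => hab (e.symm.injective h4)
    · intro a ha
      have h4 := h2 (mem_coe.2 (mem_map_of_mem e.symm.toEmbedding ha))
      have h5 := (hA _).2 h4
      simpa using h5
    · rw [← h3, card_map]) (by
    funext ρ
    show ∑ v ∈ ρᶜ, z ((insert v ρ).map e.symm.toEmbedding) = 0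
    have h1 := congrFun hz2 (ρ.map e.symm.toEmbedding)
    rw [bd_apply] at h1
    have h2 : (ρ.map e.symm.toEmbedding)ᶜ = ρᶜ.map e.symm.toEmbedding := by
      ext v
      simp
    rw [h2, sum_map] at h1
    rw [← h1.trans (Pi.zero_apply _)]
    refine sum_congr rfl fun v _ => ?_
    rw [sg_two, map_insert])
  refine ⟨fun T => w (T.map e.toEmbedding), mem_KKn.2 fun T hT => ?_, ?_⟩
  · obtain ⟨h1, h2, h3⟩ := hw _ hT
    refine ⟨?_, ?_, ?_⟩
    · intro a ha b hb hab
      have h4 := h1 (mem_coe.2 (mem_map_of_mem e.toEmbedding (mem_coe.1 ha)))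
        (mem_coe.2 (mem_map_of_mem e.toEmbedding (mem_coe.1 hb))) fun h4 => hab (e.injective h4)
      rw [TW.tr_adj] at h4
      simpa using h4
    · intro a ha
      exact (hA a).1 (h2 (mem_map_of_mem e.toEmbedding (mem_coe.1 ha)))
    · rw [← h3, card_map]
  · funext T
    rw [bd_apply]
    have h1 : z T = (fun σ => z (σ.map e.symm.toEmbedding)) (T.map e.toEmbedding) := by
      show z T = z _
      rw [hmap]
    rw [h1, ← hwz]
    show _ = ∑ v ∈ (T.map e.toEmbedding)ᶜ, w (insert v (T.map e.toEmbedding))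
    have h2 : (T.map e.toEmbedding)ᶜ = Tᶜ.map e.toEmbedding := by
      ext v
      simp
    rw [h2, sum_map]
    refine sum_congr rfl fun v _ => ?_
    rw [sg_two, map_insert]

/-- the ascending links are acyclic above the middle -/
theorem red_zero {t q : V → V} (h : Cls G t q) {N : ℕ} (e : V ≃ Fin N) {n i : ℕ} (hb : Bd n (TW.tr G e))
    (hi : n < 2 * i) (S : Finset V) : red G (ZMod 2) (asc t S) i = 0 := by
  classical
  have hA : ∀ v, e v ∈ (univ.filter fun k => e.symm k ∈ asc t S) ↔ v ∈ asc t S := by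
    intro v
    rw [mem_filter, e.symm_apply_apply]
    exact ⟨fun h => h.2, fun h => ⟨mem_univ _, h⟩⟩
  refine beta_two_of_ex e _ hA (ex_of_bd (f := fun k => e (nx t q (e.symm k))) hb ⟨?_, ?_, ?_⟩ hi)
  · intro k hk hk'
    rw [mem_filter] at hk hk'
    have h1 := hk.2
    have h2 := hk'.2
    rw [e.symm_apply_apply] at h2
    obtain ⟨v, hv⟩ : ∃ v, v = e.symm k := ⟨_, rfl⟩
    rw [← hv] at h1 h2
    unfold asc at h1 h2
    rw [Set.mem_ofPred_eq] at h1 h2
    rw [t_nx h] at h2
    unfold nx at h2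
    by_cases h3 : v = t v
    · rw [if_pos h3] at h2
      have h4 : t v ∉ S := h1.elim (fun h5 => h5.2) fun h5 => absurd h3 h5.1
      rcases h2 with h5 | h5
      · exact h.qne v h5.1
      · exact h4 h5.2
    · rw [if_neg h3] at h2
      have h4 : t v ∈ S := h1.elim (fun h5 => absurd h5.1 h3) fun h5 => h5.2
      rcases h2 with h5 | h5
      · exact h5.2 h4
      · exact h5.1 rfl
  · intro a _ b _ hab
    rw [TW.tr_adj] at hab ⊢
    rw [e.symm_apply_apply]
    exact (nx_le h _ _ hab.symm).symm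
  · intro a _ b _ hab
    rw [TW.tr_adj] at hab ⊢
    rw [e.symm_apply_apply, e.symm_apply_apply]
    exact nx_le h _ _ ((nx_le h _ _ hab.symm).symm)

open Filter Topology

/-- **The homology growth modulo two above the middle.** -/
theorem growth_two {t q : V → V} (h : Cls G t q) {N : ℕ} (e : V ≃ Fin N) {n i : ℕ} (hb : Bd n (TW.tr G e))
    (hi : n < 2 * i) (R : ℕ) (H : Subgroup (W G)) (hf : H.FiniteIndex) (hH : H ≤ commutator (W G))
    (hR : Far G R H) : R * betti G (ZMod 2) H i ≤ 2 * Fintype.card V * 2 ^ Fintype.card V * H.index := by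
  have h1 := growth G h (ZMod 2) i R H hf hH hR
  have h2 : (∑ S : Finset V, (red G (ZMod 2) (asc t S) i : ℤ)) = 0 :=
    sum_eq_zero fun S _ => by rw [red_zero h e hb hi S]; rfl
  rw [h2, mul_zero, sub_zero] at h1
  have h3 := (le_abs_self _).trans h1
  have h4 : (2 : ℤ) ^ Fintype.card V * ((R * betti G (ZMod 2) H i : ℕ) : ℤ) ≤
      2 ^ Fintype.card V * ((2 * Fintype.card V * 2 ^ Fintype.card V * H.index : ℕ) : ℤ) := by
    push_cast
    calc (2 : ℤ) ^ Fintype.card V * (R * betti G (ZMod 2) H i) =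
        R * (2 ^ Fintype.card V * betti G (ZMod 2) H i) := by ring
      _ ≤ _ := h3
  have h5 := le_of_mul_le_mul_left h4 (by positivity)
  exact_mod_cast h5

/-- **Groups which act on contractible spaces of small dimension.** -/
theorem growth_mod_two (hd : Dom G) (K : Subgroup (W G)) (hK : K.FiniteIndex) (Δ : Type) [Group Δ] (φ : K →* Δ)
    (hφ : Function.Injective φ) {n i : ℕ} (ha : Acts n Δ) (hi : n < 2 * i) :
    (∀ Γ : ℕ → Subgroup (W G), Antitone Γ → (∀ k, (Γ k).FiniteIndex) → Γ 0 ≤ commutator (W G) →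
      (∀ k, ∀ g ∈ Γ 0, ∀ x ∈ Γ k, g * x * g⁻¹ ∈ Γ k) → ⨅ k, Γ k = ⊥ →
      Tendsto (fun k => (betti G (ZMod 2) (Γ k) i : ℝ) / (Γ k).relIndex (Γ 0)) atTop (𝓝 0)) ∧
    (∀ (R : ℕ) (H : Subgroup (W G)), H.FiniteIndex → H ≤ commutator (W G) → Far G R H →
      R * betti G (ZMod 2) H i ≤ 2 * Fintype.card V * 2 ^ Fintype.card V * H.index) := by
  obtain ⟨t, q, h⟩ := exists_cls hd
  obtain ⟨e⟩ : Nonempty (V ≃ Fin (Fintype.card V)) := ⟨Fintype.equivFin V⟩
  have hb : Bd n (TW.tr G e) := bd_of_acts e hd K (ha.of_hom φ hφ)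
  refine ⟨fun Γ hanti hf hc hn hbot => ?_, fun R H hf hH hR => growth_two h e hb hi R H hf hH hR⟩
  have h1 := growth_chain_rel G h (ZMod 2) i hanti hf hc hn hbot
  have h2 : (∑ S : Finset V, (red G (ZMod 2) (asc t S) i : ℝ)) = 0 :=
    sum_eq_zero fun S _ => by rw [red_zero h e hb hi S]; exact Nat.cast_zero
  rwa [h2, mul_zero, zero_div] at h1

end

end Pool.Agent.H815.HG
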